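import Pool.Agent.T2H70.BH.RealB

set_option autoImplicit false

open Finset

namespace Pool.Agent.T2H70.BH

/-- majorants of the logarithmic tails -/
noncomputable def U (j : ℕ) : ℝ :=
  if j = 0 then 7926 / 10000 else if j = 1 then 5837 / 10000 else if j = 2 then 3546 / 10000
  else if j = 3 then 2019 / 10000 else if j = 4 then 1115 / 10000
  else (13 / 25 : ℝ) ^ j * (25 / 12)

lemma geom_le (M : ℕ) {q : ℝ} (h0 : 0 ≤ q) (h1 : q < 1) : ∑ i ∈ range M, q ^ i ≤ 1 / (1 - q) := by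
  rw [le_div_iff₀ (by linarith)]
  have := geom_sum_mul_neg q M
  rw [this]
  have : 0 ≤ q ^ M := by positivity
  linarith

lemma part_le (j M : ℕ) : ∑ i ∈ range M, (13 / 25 : ℝ) ^ i / ((j : ℝ) + 2 + i)
    ≤ (∑ i ∈ range 5, (13 / 25 : ℝ) ^ i / ((j : ℝ) + 2 + i))
      + (13 / 25 : ℝ) ^ 5 / ((j : ℝ) + 7) * (25 / 12) := by
  have h1 : ∑ i ∈ range M, (13 / 25 : ℝ) ^ i / ((j : ℝ) + 2 + i)
      ≤ ∑ i ∈ range (5 + M), (13 / 25 : ℝ) ^ i / ((j : ℝ) + 2 + i) := by
    apply Finset.sum_le_sum_of_subset_of_nonneg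
    · apply Finset.range_subset_range.2; omega
    · intro i _ _; positivity
  rw [Finset.sum_range_add] at h1
  refine h1.trans ?_
  gcongr
  have h2 : ∀ i ∈ range M, (13 / 25 : ℝ) ^ (5 + i) / ((j : ℝ) + 2 + ((5 + i : ℕ) : ℝ))
      ≤ (13 / 25 : ℝ) ^ 5 / ((j : ℝ) + 7) * (13 / 25 : ℝ) ^ i := by
    intro i _
    rw [pow_add, div_mul_eq_mul_div]
    apply div_le_div_of_nonneg_left (by positivity) (by positivity)
    push_cast
    have : (0 : ℝ) ≤ i := Nat.cast_nonneg i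
    linarith
  refine (Finset.sum_le_sum h2).trans ?_
  rw [← Finset.mul_sum]
  apply mul_le_mul_of_nonneg_left _ (by positivity)
  have := geom_le M (q := 13 / 25) (by norm_num) (by norm_num)
  refine this.trans (le_of_eq (by norm_num))

lemma U_bound (j M : ℕ) : ((j : ℝ) + 1) * ∑ i ∈ range M, (13 / 25 : ℝ) ^ (j + i) / ((j : ℝ) + 2 + i)
    ≤ U j := by
  have h0 : ∑ i ∈ range M, (13 / 25 : ℝ) ^ (j + i) / ((j : ℝ) + 2 + i)
      = (13 / 25 : ℝ) ^ j * ∑ i ∈ range M, (13 / 25 : ℝ) ^ i / ((j : ℝ) + 2 + i) := by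
    rw [Finset.mul_sum]
    apply Finset.sum_congr rfl
    intro i _
    rw [pow_add]; ring
  rw [h0]
  have h1 := part_le j M
  have hj : (0 : ℝ) < (j : ℝ) + 1 := by positivity
  by_cases h5 : j < 5
  · refine (mul_le_mul_of_nonneg_left (mul_le_mul_of_nonneg_left h1 (by positivity)) hj.le).trans ?_
    unfold U
    interval_cases j <;> norm_num [Finset.sum_range_succ]
  · have h2 : ((j : ℝ) + 1) * ((13 / 25 : ℝ) ^ j * ∑ i ∈ range M, (13 / 25 : ℝ) ^ i / ((j : ℝ) + 2 + i))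
        ≤ (13 / 25 : ℝ) ^ j * ∑ i ∈ range M, (13 / 25 : ℝ) ^ i := by
      have : ((j : ℝ) + 1) * ((13 / 25 : ℝ) ^ j * ∑ i ∈ range M, (13 / 25 : ℝ) ^ i / ((j : ℝ) + 2 + i))
        = (13 / 25 : ℝ) ^ j * ∑ i ∈ range M, (((j : ℝ) + 1) * ((13 / 25 : ℝ) ^ i / ((j : ℝ) + 2 + i))) := by
        rw [← Finset.mul_sum]; ring
      rw [this]
      apply mul_le_mul_of_nonneg_left _ (by positivity)
      apply Finset.sum_le_sum
      intro i _
      rw [← mul_div_assoc, div_le_iff₀ (by positivity), mul_comm]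
      apply mul_le_mul_of_nonneg_left _ (by positivity)
      have : (0 : ℝ) ≤ i := Nat.cast_nonneg i
      linarith
    refine h2.trans ?_
    unfold U
    rw [if_neg (by omega), if_neg (by omega), if_neg (by omega), if_neg (by omega),
      if_neg (by omega)]
    apply mul_le_mul_of_nonneg_left _ (by positivity)
    have := geom_le M (q := 13 / 25) (by norm_num) (by norm_num)
    refine this.trans (le_of_eq (by norm_num))

lemma U_nonneg (j : ℕ) : 0 ≤ U j := by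
  unfold U
  split_ifs <;> positivity

lemma sum_U (N : ℕ) : ∑ j ∈ range N, U j ^ 2 ≤ 1162 / 1000 := by
  have h1 : ∑ j ∈ range N, U j ^ 2 ≤ ∑ j ∈ range (5 + N), U j ^ 2 := by
    apply Finset.sum_le_sum_of_subset_of_nonneg
    · apply Finset.range_subset_range.2; omega
    · intro i _ _; positivity
  rw [Finset.sum_range_add] at h1
  have h2 : ∑ j ∈ range N, U (5 + j) ^ 2
      ≤ (13 / 25 : ℝ) ^ 10 * (625 / 144) * (1 / (1 - (13 / 25 : ℝ) ^ 2)) := by
    have h3 : ∀ j ∈ range N, U (5 + j) ^ 2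
        = (13 / 25 : ℝ) ^ 10 * (625 / 144) * ((13 / 25 : ℝ) ^ 2) ^ j := by
      intro j _
      unfold U
      rw [if_neg (by omega), if_neg (by omega), if_neg (by omega), if_neg (by omega),
        if_neg (by omega), ← pow_mul]
      ring
    rw [Finset.sum_congr rfl h3, ← Finset.mul_sum]
    apply mul_le_mul_of_nonneg_left _ (by positivity)
    exact geom_le N (by positivity) (by norm_num)
  have h4 : ∑ j ∈ range 5, U j ^ 2 = (7926 / 10000 : ℝ) ^ 2 + (5837 / 10000) ^ 2 + (3546 / 10000) ^ 2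
      + (2019 / 10000) ^ 2 + (1115 / 10000) ^ 2 := by
    simp [Finset.sum_range_succ, U]
  rw [h4] at h1
  refine h1.trans ?_
  refine (add_le_add le_rfl h2).trans ?_
  norm_num

namespace Rad

variable {k r v : ℝ} (Q : Rad k r v)

include Q

lemma W_le (hr : r ≤ 13 / 25) (A : ℕ → ℝ) (hA : ∀ n, 0 ≤ A n)
    (hA1 : ∀ N, ∑ n ∈ range N, A n ^ 2 ≤ 1) (N : ℕ) :
    2 * ∑ n ∈ range N, r ^ (n + 1) / ((n : ℝ) + 1) * ∑ j ∈ range n, ((j : ℝ) + 1) * A j
      ≤ 3 - 4 * v := by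
  have hr0 := Q.r0
  set W := ∑ n ∈ range N, r ^ (n + 1) / ((n : ℝ) + 1) * ∑ j ∈ range n, ((j : ℝ) + 1) * A j with hW
  have h1 : W = ∑ j ∈ range N, A j * (((j : ℝ) + 1) *
      ∑ n ∈ Ico (j + 1) N, r ^ (n + 1) / ((n : ℝ) + 1)) := by
    rw [hW]
    simp only [Finset.mul_sum]
    rw [Finset.sum_comm' (s' := fun j => Ico (j + 1) N) (t' := range N)]
    · apply Finset.sum_congr rfl
      intro j _
      apply Finset.sum_congr rfl
      intro n _
      ring
    · intro x y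
      simp only [Finset.mem_range, Finset.mem_Ico]
      omega
  have h2 : ∀ j ∈ range N, A j * (((j : ℝ) + 1) * ∑ n ∈ Ico (j + 1) N, r ^ (n + 1) / ((n : ℝ) + 1))
      ≤ r ^ 2 * (A j * U j) := by
    intro j _
    have h3 : ∑ n ∈ Ico (j + 1) N, r ^ (n + 1) / ((n : ℝ) + 1)
        ≤ r ^ 2 * ∑ i ∈ range (N - (j + 1)), (13 / 25 : ℝ) ^ (j + i) / ((j : ℝ) + 2 + i) := by
      rw [Finset.sum_Ico_eq_sum_range, Finset.mul_sum]
      apply Finset.sum_le_sum
      intro i _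
      have e1 : r ^ (j + 1 + i + 1) = r ^ 2 * r ^ (j + i) := by ring
      rw [e1, mul_div_assoc]
      have e2 : (((j + 1 + i : ℕ) : ℝ) + 1) = (j : ℝ) + 2 + i := by push_cast; ring
      rw [e2]
      gcongr
    calc A j * (((j : ℝ) + 1) * ∑ n ∈ Ico (j + 1) N, r ^ (n + 1) / ((n : ℝ) + 1))
        ≤ A j * (((j : ℝ) + 1) *
          (r ^ 2 * ∑ i ∈ range (N - (j + 1)), (13 / 25 : ℝ) ^ (j + i) / ((j : ℝ) + 2 + i))) := by
          have := hA j
          gcongr
      _ = r ^ 2 * (A j * (((j : ℝ) + 1) *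
          ∑ i ∈ range (N - (j + 1)), (13 / 25 : ℝ) ^ (j + i) / ((j : ℝ) + 2 + i))) := by ring
      _ ≤ r ^ 2 * (A j * U j) := by
          have := hA j
          have h4 := U_bound j (N - (j + 1))
          gcongr
  have h3 : W ≤ r ^ 2 * ∑ j ∈ range N, A j * U j := by
    rw [h1, Finset.mul_sum]
    exact Finset.sum_le_sum h2
  have h4 : (∑ j ∈ range N, A j * U j) ^ 2 ≤ (1078 / 1000) ^ 2 := by
    have h5 := Finset.sum_mul_sq_le_sq_mul_sq (range N) A U
    have h6 := hA1 N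
    have h7 := sum_U N
    have h8 : 0 ≤ ∑ j ∈ range N, U j ^ 2 := Finset.sum_nonneg (fun _ _ => by positivity)
    calc _ ≤ _ := h5
      _ ≤ 1 * (1162 / 1000 : ℝ) := mul_le_mul h6 h7 h8 zero_le_one
      _ ≤ _ := by norm_num
  have h5 : ∑ j ∈ range N, A j * U j ≤ 1078 / 1000 := le_of_sq_le_sq h4 (by norm_num)
  have h6 : W ≤ r ^ 2 * (1078 / 1000) := h3.trans (mul_le_mul_of_nonneg_left h5 (by positivity))
  have h7 : 60398 / 100000 ≤ v := by
    have := Q.hr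
    have := Q.v1
    nlinarith
  have h8 : 2 * (r ^ 2 * (1078 / 1000)) ≤ 3 - 4 * v := by
    rw [Q.hr]
    have := Q.v2
    nlinarith
  linarith

lemma final_A {β H G W : ℝ} (hβ0 : 0 ≤ β) (hβ1 : β ≤ 1) (hH : H ≤ 3 - 4 * v)
    (hW0 : 0 ≤ W) (hW : 2 * W ≤ 3 - 4 * v) (hG : G ≤ k * β * H + k * (1 - β ^ 2) * W) :
    H + G ≤ 1 := by
  have hk0 := Q.k0
  have h1 : k * (1 - β ^ 2) * W ≤ k * (1 - β) * (3 - 4 * v) := by
    have : k * (1 - β ^ 2) * W = k * (1 - β) * ((1 + β) * W) := by ring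
    rw [this]
    apply mul_le_mul_of_nonneg_left _ (mul_nonneg hk0.le (by linarith))
    nlinarith
  have h2 : k * β * H ≤ k * β * (3 - 4 * v) := by gcongr
  have h3 := Q.hk
  calc H + G ≤ (3 - 4 * v) + (k * β * (3 - 4 * v) + k * (1 - β) * (3 - 4 * v)) := by linarith
    _ = (1 + k) * (3 - 4 * v) := by ring
    _ = 1 := h3

end Rad

end Pool.Agent.T2H70.BH
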