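import Pool.Agent.T2H70.BH.L2g
import Pool.Agent.T2H70.BH.RealA

set_option autoImplicit false

open Metric Complex Filter Topology Set MeasureTheory
open Pool.Agent.Helper610.Bohr

namespace Pool.Agent.T2H70.BH

namespace Rad

variable {k r v : ℝ} (Q : Rad k r v)

include Q

lemma small_g {α β G : ℝ} (ha0 : 0 ≤ α) (har : α ≤ r) (hβ0 : 0 ≤ β) (hβ1 : β ≤ 1)
    (hG : G ^ 2 * (1 - r ^ 2) ≤
      k ^ 2 * ((1 - β ^ 2) * α ^ 2 * (47 / 64) + (1 - α ^ 2)) * (r ^ 2) ^ 2) :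
    k * β * α * r + G ≤ k * (2 * r ^ 2) := by
  have hr := Q.r0
  have hR := Q.r_sq_lt
  have hk := Q.k0
  have h1R : 0 < 1 - r ^ 2 := by linarith
  have hα1 : α ^ 2 ≤ r ^ 2 := by nlinarith
  set T : ℝ := Real.sqrt ((1 - α ^ 2) * (r ^ 2) ^ 2 / (1 - r ^ 2)) with hT
  have hTn : 0 ≤ (1 - α ^ 2) * (r ^ 2) ^ 2 / (1 - r ^ 2) := by
    apply div_nonneg _ h1R.le
    apply mul_nonneg (by linarith) (by positivity)
  have hT0 : 0 ≤ T := Real.sqrt_nonneg _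
  have hT2 : T ^ 2 = (1 - α ^ 2) * (r ^ 2) ^ 2 / (1 - r ^ 2) := Real.sq_sqrt hTn
  have hs : α * r + T ≤ 2 * r ^ 2 := by
    apply Q.small ha0 har
    rw [hT2, div_mul_cancel₀ _ h1R.ne']
  set Y : ℝ := 47 / 64 * α ^ 2 * (r ^ 2) ^ 2 / (1 - r ^ 2) with hY
  have hYT : Y ≤ α * r * T := by
    rcases eq_or_lt_of_le ha0 with h | h
    · rw [hY, ← h]; simp
    · have h2 : (Y / (α * r)) ^ 2 ≤ T ^ 2 := by
        rw [hT2, hY]
        have e1 : (47 / 64 * α ^ 2 * (r ^ 2) ^ 2 / (1 - r ^ 2) / (α * r)) ^ 2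
            = ((47 / 64) ^ 2 * α ^ 2 * r ^ 2 / (1 - r ^ 2)) * ((r ^ 2) ^ 2 / (1 - r ^ 2)) := by
          field_simp
        have e2 : (1 - α ^ 2) * (r ^ 2) ^ 2 / (1 - r ^ 2)
            = (1 - α ^ 2) * ((r ^ 2) ^ 2 / (1 - r ^ 2)) := by ring
        rw [e1, e2]
        apply mul_le_mul_of_nonneg_right _ (by positivity)
        rw [div_le_iff₀ h1R]
        nlinarith [sq_nonneg α, sq_nonneg r, mul_nonneg (sq_nonneg α) (sq_nonneg r)]
      have h3 : Y / (α * r) ≤ T := le_of_sq_le_sq h2 hT0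
      rw [div_le_iff₀ (by positivity)] at h3
      linarith
  set G' : ℝ := G / k with hG'
  have hGk : G = k * G' := by rw [hG']; field_simp
  have hG2 : G' ^ 2 ≤ (1 - β ^ 2) * Y + T ^ 2 := by
    have e1 : k ^ 2 * (G' ^ 2 * (1 - r ^ 2)) ≤ k ^ 2 * (((1 - β ^ 2) * Y + T ^ 2) * (1 - r ^ 2)) := by
      calc k ^ 2 * (G' ^ 2 * (1 - r ^ 2)) = G ^ 2 * (1 - r ^ 2) := by rw [hGk]; ring
        _ ≤ _ := hG
        _ = _ := by
          rw [hT2, hY]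
          field_simp
    have e2 := le_of_mul_le_mul_left e1 (by positivity)
    exact le_of_mul_le_mul_right e2 h1R
  have h5 := max_le hβ0 hβ1 (y := α * r) (by positivity) hT0 hYT hG2
  calc k * β * α * r + G = k * (β * (α * r) + G') := by rw [hGk]; ring
    _ ≤ k * (2 * r ^ 2) := by
      apply mul_le_mul_of_nonneg_left _ hk.le
      exact h5.trans hs

end Rad

lemma norm_succ_mul (n : ℕ) (x : ℂ) : ‖((n : ℂ) + 1) * x‖ = ((n : ℝ) + 1) * ‖x‖ := by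
  rw [norm_mul]
  congr 1
  have : ((n : ℂ) + 1) = (((n : ℝ) + 1 : ℝ) : ℂ) := by push_cast; rfl
  rw [this, Complex.norm_real, Real.norm_eq_abs, abs_of_pos (by positivity)]

namespace Dat

variable {k : ℝ} {h g w : ℂ → ℂ} {a b : ℕ → ℂ} (D : Dat k h g w a b)

include D

lemma conv_b (n : ℕ) : ((n : ℝ) + 1) * ‖b (n + 1)‖ ≤ k * (‖w 0‖ * (((n : ℝ) + 1) * ‖a (n + 1)‖)
    + (1 - ‖w 0‖ ^ 2) * ∑ j ∈ Finset.range n, ((j : ℝ) + 1) * ‖a (j + 1)‖) := by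
  have hk := D.k0
  have hw := PS.of_diff D.wd
  have hw0 : coeff w 0 = w 0 := by simp [coeff]
  have hwm : ∀ m, m ≠ 0 → ‖coeff w m‖ ≤ 1 - ‖w 0‖ ^ 2 := by
    intro m hm
    have := coef_le hw D.wd (fun z hz => D.wb z (by simpa using hz)) hm
    rwa [hw0] at this
  have h1 := PS_deriv D.gp D.gd
  have h2 := ((PS_deriv D.hp D.hd).mul hw).const_mul (k : ℂ)
  have h3 : PS (deriv g) (fun n => (k : ℂ) * conv (fun n : ℕ => ((n : ℂ) + 1) * a (n + 1)) (coeff w) n) := by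
    refine h2.congr (fun z hz => ?_)
    rw [D.eq z hz]; ring
  have h4 := congrFun (h1.unique h3) n
  rw [← norm_succ_mul n (b (n + 1)), h4, norm_mul, Complex.norm_real, Real.norm_eq_abs,
    abs_of_pos hk]
  apply mul_le_mul_of_nonneg_left _ hk.le
  unfold conv
  rw [Finset.Nat.sum_antidiagonal_eq_sum_range_succ
    (fun i j => ((i : ℂ) + 1) * a (i + 1) * coeff w j), Finset.sum_range_succ]
  refine (norm_add_le _ _).trans ?_
  rw [Nat.sub_self, hw0, norm_mul, norm_succ_mul, add_comm]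
  have h5 : ‖∑ x ∈ Finset.range n, ((x : ℂ) + 1) * a (x + 1) * coeff w (n - x)‖
      ≤ (1 - ‖w 0‖ ^ 2) * ∑ j ∈ Finset.range n, ((j : ℝ) + 1) * ‖a (j + 1)‖ := by
    refine (norm_sum_le _ _).trans ?_
    rw [Finset.mul_sum]
    apply Finset.sum_le_sum
    intro i hi
    have hi' := Finset.mem_range.1 hi
    rw [norm_mul, norm_succ_mul, mul_comm (1 - ‖w 0‖ ^ 2)]
    apply mul_le_mul_of_nonneg_left _ (by positivity)
    exact hwm _ (by omega)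
  linarith

lemma sum_a_sq (N : ℕ) : ∑ n ∈ Finset.range N, ‖a (n + 1)‖ ^ 2 ≤ 1 := by
  have h1 := D.hp.sum_sq_le_one D.hd D.hb (N + 1)
  rw [Finset.sum_range_succ'] at h1
  have : 0 ≤ ‖a 0‖ ^ 2 := by positivity
  linarith

/-- sum over `b` in terms of `a` -/
lemma sum_b_le {r : ℝ} (hr : 0 < r) (N : ℕ) :
    ∑ n ∈ Finset.range N, ‖b (n + 1)‖ * r ^ (n + 1) ≤
      k * ‖w 0‖ * (∑ n ∈ Finset.range N, ‖a (n + 1)‖ * r ^ (n + 1)) + k * (1 - ‖w 0‖ ^ 2) *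
        ∑ n ∈ Finset.range N, r ^ (n + 1) / ((n : ℝ) + 1) *
          ∑ j ∈ Finset.range n, ((j : ℝ) + 1) * ‖a (j + 1)‖ := by
  rw [Finset.mul_sum, Finset.mul_sum, ← Finset.sum_add_distrib]
  apply Finset.sum_le_sum
  intro n _
  have h1 := D.conv_b n
  have hn : (0 : ℝ) < (n : ℝ) + 1 := by positivity
  have h2 : ‖b (n + 1)‖ ≤ (k * (‖w 0‖ * (((n : ℝ) + 1) * ‖a (n + 1)‖)
    + (1 - ‖w 0‖ ^ 2) * ∑ j ∈ Finset.range n, ((j : ℝ) + 1) * ‖a (j + 1)‖)) / ((n : ℝ) + 1) := by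
    rw [le_div_iff₀ hn]; linarith
  have h3 := mul_le_mul_of_nonneg_right h2 (show 0 ≤ r ^ (n + 1) by positivity)
  refine h3.trans (le_of_eq ?_)
  field_simp

/-- estimates in the first regime for `h` and `g` (small first coefficient) -/
lemma small_case {r : ℝ} (hr0 : 0 < r) (hr1 : r < 1) (N : ℕ) :
    (∑ n ∈ Finset.range N, ‖a (n + 2)‖ * r ^ (n + 2)) ^ 2 * (1 - r ^ 2)
      ≤ (1 - ‖a 1‖ ^ 2) * (r ^ 2) ^ 2 ∧
    (∑ n ∈ Finset.range N, ‖b (n + 2)‖ * r ^ (n + 2)) ^ 2 * (1 - r ^ 2)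
      ≤ k ^ 2 * ((1 - ‖w 0‖ ^ 2) * ‖a 1‖ ^ 2 * (47 / 64) + (1 - ‖a 1‖ ^ 2)) * (r ^ 2) ^ 2 := by
  have hR : r ^ 2 < 1 := by nlinarith
  have hR0 : 0 < r ^ 2 := by positivity
  have hS : ∀ s, r ^ 2 < s → s < 1 → ∃ S : ℝ,
      HasSum (fun n => ‖a (n + 2)‖ ^ 2 * s ^ (n + 1)) S ∧ S ≤ 1 - ‖a 1‖ ^ 2 := by
    intro s hs hs1
    obtain ⟨S, hS, hS0, ha1, hS1⟩ := D.tail_h (s := s) (by linarith) hs1
    refine ⟨S, hS, ?_⟩
    have ha0 := norm_nonneg (a 1)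
    have h2 : ‖a 1‖ ^ 2 ≤ 1 := by nlinarith
    have h3 : 0 < 1 - ‖a 1‖ ^ 2 * s := by
      have : ‖a 1‖ ^ 2 * s ≤ 1 * s := mul_le_mul_of_nonneg_right h2 (by linarith)
      linarith
    have h4 : s * (1 - ‖a 1‖ ^ 2) ^ 2 ≤ (1 - ‖a 1‖ ^ 2) * (1 - ‖a 1‖ ^ 2 * s) := by
      have : (1 - ‖a 1‖ ^ 2) * (1 - ‖a 1‖ ^ 2 * s) - s * (1 - ‖a 1‖ ^ 2) ^ 2
          = (1 - ‖a 1‖ ^ 2) * (1 - s) := by ring
      have h5 : 0 ≤ (1 - ‖a 1‖ ^ 2) * (1 - s) := mul_nonneg (by linarith) (by linarith)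
      linarith
    exact le_of_mul_le_mul_right (hS1.trans h4) h3
  constructor
  · have := lim_one (A := (∑ n ∈ Finset.range N, ‖a (n + 2)‖ * r ^ (n + 2)) ^ 2)
      (C := (1 - ‖a 1‖ ^ 2) * (r ^ 2) ^ 2) (D := 0) hR (by
        intro s hs hs1
        obtain ⟨S, hS1, hS2⟩ := hS s hs hs1
        have h1 := cs_tail (fun n => ‖a (n + 2)‖) hr0 hs hS1 N
        have h2 : S * (r ^ 2) ^ 2 ≤ (1 - ‖a 1‖ ^ 2) * (r ^ 2) ^ 2 := by gcongr
        linarith)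
    linarith
  · have := lim_one (A := (∑ n ∈ Finset.range N, ‖b (n + 2)‖ * r ^ (n + 2)) ^ 2)
      (C := k ^ 2 * ((1 - ‖w 0‖ ^ 2) * ‖a 1‖ ^ 2 * (5 / 16) + (1 - ‖a 1‖ ^ 2)) * (r ^ 2) ^ 2)
      (D := k ^ 2 * ((1 - ‖w 0‖ ^ 2) * ‖a 1‖ ^ 2 * (27 / 64)) * (r ^ 2) ^ 2) hR (by
        intro s hs hs1
        obtain ⟨S, hS1, hS2⟩ := hS s hs hs1
        obtain ⟨Sg, hg1, hg2⟩ := D.tail_g (by linarith) hs1 hS1
        have h1 := cs_tail (fun n => ‖b (n + 2)‖) hr0 hs hg1 N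
        have h3 : Sg * (r ^ 2) ^ 2 ≤ (k ^ 2 * ((1 - ‖w 0‖ ^ 2) * ‖a 1‖ ^ 2 * (5 / 16 + 27 / 64 * s)
          + (1 - ‖a 1‖ ^ 2))) * (r ^ 2) ^ 2 := by
          apply mul_le_mul_of_nonneg_right _ (by positivity)
          refine hg2.trans ?_
          gcongr
        refine h1.trans (h3.trans (le_of_eq ?_))
        ring)
    refine this.trans (le_of_eq ?_)
    ring

/-- estimates for `h` and `g` (large first coefficient) -/
lemma large_case {r : ℝ} (hr0 : 0 < r) (hr1 : r < 1) (har : r < ‖a 1‖) (N : ℕ) :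
    (∑ n ∈ Finset.range N, ‖a (n + 2)‖ * r ^ (n + 2)) * (1 - ‖a 1‖ * r)
      ≤ r ^ 2 - (‖a 1‖ * r) ^ 2 ∧
    ((∑ n ∈ Finset.range N, ‖b (n + 2)‖ * r ^ (n + 2)) * (1 - ‖a 1‖ * r)) ^ 2
      ≤ k ^ 2 * ((1 - ‖w 0‖ ^ 2) * ((‖a 1‖ * r) ^ 2 * (r * (20 * ‖a 1‖ + 27 * r) / 64)
        * (1 - ‖a 1‖ * r)) + (r ^ 2 - (‖a 1‖ * r) ^ 2) ^ 2) := by
  set α := ‖a 1‖ with hα
  have hα0 : 0 < α := by linarith
  set s : ℝ := r / α with hs
  have hs1 : s < 1 := (div_lt_one hα0).2 har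
  have hs0 : 0 < s := by positivity
  have hαs : α * s = r := by rw [hs]; field_simp
  obtain ⟨S, hS, hS0, ha1, hS1⟩ := D.tail_h (s := s) hs0.le hs1
  rw [← hα] at ha1 hS1
  have hx1 : α * r < 1 := by nlinarith
  have e1 : 1 - α ^ 2 * s = 1 - α * r := by
    have : α ^ 2 * s = α * (α * s) := by ring
    rw [this, hαs]
  rw [e1] at hS1
  have hRs : r ^ 2 < s := by
    rw [hs, lt_div_iff₀ hα0]; nlinarith
  have e2 : s - r ^ 2 = s * (1 - α * r) := by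
    have : s * (α * r) = r ^ 2 := by
      calc s * (α * r) = (α * s) * r := by ring
        _ = r ^ 2 := by rw [hαs]; ring
    linarith
  have h1y : 0 < 1 - α * r := by linarith
  constructor
  · set T := ∑ n ∈ Finset.range N, ‖a (n + 2)‖ * r ^ (n + 2) with hT
    have h1 := cs_tail (fun n => ‖a (n + 2)‖) hr0 hRs hS N
    rw [← hT, e2] at h1
    have h2 : s * (T * (1 - α * r)) ^ 2 ≤ s * (r ^ 2 - (α * r) ^ 2) ^ 2 := by
      calc s * (T * (1 - α * r)) ^ 2 = (T ^ 2 * (s * (1 - α * r))) * (1 - α * r) := by ring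
        _ ≤ (S * (r ^ 2) ^ 2) * (1 - α * r) := by gcongr
        _ = (S * (1 - α * r)) * (r ^ 2) ^ 2 := by ring
        _ ≤ (s * (1 - α ^ 2) ^ 2) * (r ^ 2) ^ 2 := by gcongr
        _ = _ := by ring
    have h3 := le_of_mul_le_mul_left h2 hs0
    apply le_of_sq_le_sq h3
    have : (α * r) ^ 2 ≤ r ^ 2 := by
      have : α * r ≤ r := by nlinarith
      exact pow_le_pow_left₀ (by positivity) this 2
    linarith
  · obtain ⟨Sg, hg1, hg2⟩ := D.tail_g hs0.le hs1 hS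
    rw [← hα] at hg2
    set T := ∑ n ∈ Finset.range N, ‖b (n + 2)‖ * r ^ (n + 2) with hT
    have h1 := cs_tail (fun n => ‖b (n + 2)‖) hr0 hRs hg1 N
    rw [← hT, e2] at h1
    have hk2 : 0 ≤ k ^ 2 := by positivity
    have h2 : s * (T * (1 - α * r)) ^ 2 ≤ s * (k ^ 2 * ((1 - ‖w 0‖ ^ 2) *
        ((α * r) ^ 2 * (r * (20 * α + 27 * r) / 64)
        * (1 - α * r)) + (r ^ 2 - (α * r) ^ 2) ^ 2)) := by
      calc s * (T * (1 - α * r)) ^ 2 = (T ^ 2 * (s * (1 - α * r))) * (1 - α * r) := by ring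
        _ ≤ (Sg * (r ^ 2) ^ 2) * (1 - α * r) := by gcongr
        _ ≤ ((k ^ 2 * ((1 - ‖w 0‖ ^ 2) * α ^ 2 * (5 / 16 + 27 / 64 * s) + S)) * (r ^ 2) ^ 2)
            * (1 - α * r) := by gcongr
        _ = k ^ 2 * (((1 - ‖w 0‖ ^ 2) * α ^ 2 * (5 / 16 + 27 / 64 * s)) * (r ^ 2) ^ 2
            * (1 - α * r) + (S * (1 - α * r)) * (r ^ 2) ^ 2) := by ring
        _ ≤ k ^ 2 * (((1 - ‖w 0‖ ^ 2) * α ^ 2 * (5 / 16 + 27 / 64 * s)) * (r ^ 2) ^ 2
            * (1 - α * r) + (s * (1 - α ^ 2) ^ 2) * (r ^ 2) ^ 2) := by gcongr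
        _ = _ := by
          have hr' : r = α * s := hαs.symm
          rw [hr']; ring
    exact le_of_mul_le_mul_left h2 hs0

theorem bound {r v : ℝ} (Q : Rad k r v) (N : ℕ) :
    (∑ n ∈ Finset.range N, ‖a (n + 1)‖ * r ^ (n + 1))
      + (∑ n ∈ Finset.range N, ‖b (n + 1)‖ * r ^ (n + 1)) ≤ 1 := by
  have hr0 := Q.r0
  have hr1 : r < 1 := by have := Q.r_lt; linarith
  have hk0 := Q.k0
  have hβ0 := norm_nonneg (w 0)
  have hβ1 := D.w0_le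
  have hα0 := norm_nonneg (a 1)
  have hm := Q.two_R_le
  cases N with
  | zero => simp
  | succ M =>
    have hA : ∑ n ∈ Finset.range (M + 1), ‖a (n + 1)‖ * r ^ (n + 1)
        = ‖a 1‖ * r + ∑ n ∈ Finset.range M, ‖a (n + 2)‖ * r ^ (n + 2) := by
      rw [Finset.sum_range_succ', add_comm]; simp
    have hB : ∑ n ∈ Finset.range (M + 1), ‖b (n + 1)‖ * r ^ (n + 1)
        = k * ‖w 0‖ * ‖a 1‖ * r + ∑ n ∈ Finset.range M, ‖b (n + 2)‖ * r ^ (n + 2) := by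
      rw [Finset.sum_range_succ', add_comm]; simp [D.norm_b_one]
    have hα1 : ‖a 1‖ ≤ 1 := by
      obtain ⟨S, _, _, h1, _⟩ := D.tail_h (s := 0) le_rfl one_pos
      exact h1
    have hHm : ∑ n ∈ Finset.range (M + 1), ‖a (n + 1)‖ * r ^ (n + 1) ≤ 3 - 4 * v := by
      rw [hA]
      rcases le_or_gt ‖a 1‖ r with har | har
      · exact (Q.small hα0 har (D.small_case hr0 hr1 M).1).trans hm
      · exact Q.large_h (by nlinarith) (D.large_case hr0 hr1 har M).1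
    rcases le_or_gt (13 / 25) r with hr | hr
    · rcases le_or_gt ‖a 1‖ r with har | har
      · have h2 := Q.small_g hα0 har hβ0 hβ1 (D.small_case hr0 hr1 M).2
        rw [hB]
        have h3 := Q.hk
        have h4 : k * (2 * r ^ 2) ≤ k * (3 - 4 * v) := by gcongr
        linarith
      · have h1 := D.large_case hr0 hr1 har M
        have h2 := Q.final_B hr hα1 har hβ0 hβ1 h1.1 h1.2
        rw [hA, hB]
        linarith
    · have h1 := D.sum_b_le hr0 (M + 1)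
      have h2 := Q.W_le hr.le (fun n => ‖a (n + 1)‖) (fun n => norm_nonneg _) D.sum_a_sq (M + 1)
      refine Q.final_A hβ0 hβ1 hHm ?_ h2 h1
      apply Finset.sum_nonneg
      intro n _
      apply mul_nonneg (by positivity)
      apply Finset.sum_nonneg
      intro j _
      positivity

end Dat

end Pool.Agent.T2H70.BH
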