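import Pool.Agent.T2H70.BH.SP

set_option autoImplicit false

open Metric Complex Filter Topology Set
open Pool.Agent.Helper610.Bohr

namespace Pool.Agent.T2H70.BH

/-- shift by `m` -/
def shiftK (m : ℕ) (a : ℕ → ℂ) (n : ℕ) : ℂ := if m ≤ n then a (n - m) else 0

lemma PS_shiftK {f : ℂ → ℂ} {a : ℕ → ℂ} (hf : PS f a) (m : ℕ) :
    PS (fun z => z ^ m * f z) (shiftK m a) := by
  intro z hz
  have h := (hf z hz).mul_left (z ^ m)
  rw [← hasSum_nat_add_iff' m]
  have h0 : ∑ i ∈ Finset.range m, shiftK m a i * z ^ i = 0 := by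
    apply Finset.sum_eq_zero
    intro i hi
    have := Finset.mem_range.1 hi
    unfold shiftK
    rw [if_neg (by omega), zero_mul]
  rw [h0, sub_zero]
  refine h.congr_fun (fun n => ?_)
  unfold shiftK
  rw [if_pos (by omega), Nat.add_sub_cancel, pow_add]
  ring

/-- coefficients of bounded functions -/
theorem coef_le {g : ℂ → ℂ} {b : ℕ → ℂ} (hg : PS g b)
    (hd : DifferentiableOn ℂ g (ball 0 1)) (hb : ∀ z : ℂ, ‖z‖ < 1 → ‖g z‖ ≤ 1) {m : ℕ}
    (hm : m ≠ 0) : ‖b m‖ ≤ 1 - ‖b 0‖ ^ 2 := by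
  have hpi := Real.pi_pos
  have key : ∀ x : ℂ, ‖b 0‖ ^ 2 + ‖b m + x * b 0‖ ^ 2 ≤ 1 + ‖x‖ ^ 2 := by
    intro x
    have hF : PS (fun z => g z + x * (z ^ m * g z)) (fun n => b n + x * shiftK m b n) :=
      hg.add ((PS_shiftK hg m).const_mul x)
    have hFd : DifferentiableOn ℂ (fun z => g z + x * (z ^ m * g z)) (ball 0 1) := by
      fun_prop
    have hone : PS (fun z : ℂ => 1 + x * (z ^ m * 1)) (fun n => (if n = 0 then (1 : ℂ) else 0) +
        x * shiftK m (fun n => if n = 0 then (1 : ℂ) else 0) n) :=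
      (PS.const 1).add ((PS_shiftK (PS.const 1) m).const_mul x)
    have honed : DifferentiableOn ℂ (fun z : ℂ => 1 + x * (z ^ m * 1)) (ball 0 1) := by fun_prop
    have h1 : ∀ ρ : ℝ, 0 ≤ ρ → ρ < 1 →
        ‖b 0‖ ^ 2 + ‖b m + x * b 0‖ ^ 2 * ρ ^ (2 * m) ≤ 1 + ‖x‖ ^ 2 * ρ ^ (2 * m) := by
      intro ρ h0 h1
      have hp := hF.parseval hFd h0 h1
      have h2 := sum_le_hasSum ({0, m} : Finset ℕ) (fun n _ => by positivity) hp
      have hp1 := hone.parseval honed h0 h1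
      have h3 : HasSum (fun n => ‖(if n = 0 then (1 : ℂ) else 0) +
        x * shiftK m (fun n => if n = 0 then (1 : ℂ) else 0) n‖ ^ 2 * ρ ^ (2 * n))
          (∑ n ∈ ({0, m} : Finset ℕ), ‖(if n = 0 then (1 : ℂ) else 0) +
        x * shiftK m (fun n => if n = 0 then (1 : ℂ) else 0) n‖ ^ 2 * ρ ^ (2 * n)) := by
        refine hasSum_sum_of_ne_finset_zero (fun n hn => ?_)
        simp only [Finset.mem_insert, Finset.mem_singleton, not_or] at hn
        have hz : shiftK m (fun n => if n = 0 then (1 : ℂ) else 0) n = 0 := by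
          unfold shiftK
          by_cases h5 : m ≤ n
          · rw [if_pos h5]
            exact if_neg (by omega)
          · rw [if_neg h5]
        rw [hz, if_neg hn.1]
        simp
      have h4 := hp1.unique h3
      have h5 := integral_norm_sq_le hFd h0 h1 (M := fun θ => ‖1 + x * ((pt ρ θ) ^ m * 1)‖ ^ 2)
        (by have := continuous_pt ρ; fun_prop) (fun θ => by
          have h6 := hb (pt ρ θ) (by rw [norm_pt h0]; exact h1)
          have h7 : g (pt ρ θ) + x * ((pt ρ θ) ^ m * g (pt ρ θ))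
            = (1 + x * ((pt ρ θ) ^ m * 1)) * g (pt ρ θ) := by
            ring
          rw [h7, norm_mul, mul_pow]
          have h8 := norm_nonneg (g (pt ρ θ))
          have h9 : ‖g (pt ρ θ)‖ ^ 2 ≤ 1 := by nlinarith
          nlinarith [sq_nonneg ‖1 + x * ((pt ρ θ) ^ m * 1)‖])
      rw [h4] at h5
      have h6 := h2.trans h5
      rw [Finset.sum_pair (Ne.symm hm), Finset.sum_pair (Ne.symm hm)] at h6
      have s1 : shiftK m b 0 = 0 := by unfold shiftK; rw [if_neg (by omega)]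
      have s2 : shiftK m b m = b 0 := by unfold shiftK; rw [if_pos le_rfl, Nat.sub_self]
      have s3 : shiftK m (fun n => if n = 0 then (1 : ℂ) else 0) 0 = 0 := by
        unfold shiftK; rw [if_neg (by omega)]
      have s4 : shiftK m (fun n => if n = 0 then (1 : ℂ) else 0) m = 1 := by
        unfold shiftK; rw [if_pos le_rfl, Nat.sub_self]; simp
      rw [s1, s2, s3, s4] at h6
      simpa [hm] using h6
    have ht : Filter.Tendsto (fun ρ : ℝ => ‖b 0‖ ^ 2 + ‖b m + x * b 0‖ ^ 2 * ρ ^ (2 * m) -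
        (1 + ‖x‖ ^ 2 * ρ ^ (2 * m)))
      (nhdsWithin 1 (Set.Iio 1)) (nhds (‖b 0‖ ^ 2 + ‖b m + x * b 0‖ ^ 2 * 1 ^ (2 * m) -
        (1 + ‖x‖ ^ 2 * 1 ^ (2 * m)))) := by
      have hc : Continuous (fun ρ : ℝ => ‖b 0‖ ^ 2 + ‖b m + x * b 0‖ ^ 2 * ρ ^ (2 * m) -
        (1 + ‖x‖ ^ 2 * ρ ^ (2 * m))) := by fun_prop
      exact (hc.tendsto 1).mono_left nhdsWithin_le_nhds
    have h9 := le_of_tendsto ht (b := 0) (by
      have h5 : Set.Ioo (0 : ℝ) 1 ∈ nhdsWithin (1 : ℝ) (Set.Iio 1) :=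
        Ioo_mem_nhdsLT (by norm_num)
      filter_upwards [h5] with ρ hρ
      have := h1 ρ hρ.1.le hρ.2
      linarith)
    rw [one_pow, mul_one, mul_one] at h9
    linarith
  have hk0 := key 0
  simp only [zero_mul, add_zero, norm_zero] at hk0
  have hB := norm_nonneg (b m)
  have hβ := norm_nonneg (b 0)
  rcases eq_or_lt_of_le (show ‖b 0‖ ^ 2 ≤ 1 by nlinarith) with h1 | h1
  · nlinarith
  · have hD : 0 < 1 - ‖b 0‖ ^ 2 := by linarith
    set D : ℝ := 1 - ‖b 0‖ ^ 2 with hDdef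
    have hx := key (b m * (starRingEnd ℂ) (b 0) / (D : ℂ))
    have hDne : (D : ℂ) ≠ 0 := by exact_mod_cast hD.ne'
    have e1 : b m + b m * (starRingEnd ℂ) (b 0) / (D : ℂ) * b 0 = b m / (D : ℂ) := by
      have h2 : (starRingEnd ℂ) (b 0) * b 0 = ((‖b 0‖ ^ 2 : ℝ) : ℂ) := by
        rw [mul_comm, Complex.mul_conj, Complex.normSq_eq_norm_sq]
      have h3 : ((‖b 0‖ ^ 2 : ℝ) : ℂ) = 1 - (D : ℂ) := by
        rw [hDdef]; push_cast; ring
      calc b m + b m * (starRingEnd ℂ) (b 0) / (D : ℂ) * b 0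
          = b m * (1 + ((starRingEnd ℂ) (b 0) * b 0) / (D : ℂ)) := by ring
        _ = b m * (1 + (1 - (D : ℂ)) / (D : ℂ)) := by rw [h2, h3]
        _ = b m / (D : ℂ) := by field_simp; ring
    rw [e1] at hx
    have e2 : ‖b m / (D : ℂ)‖ = ‖b m‖ / D := by
      rw [norm_div, Complex.norm_real, Real.norm_eq_abs, abs_of_pos hD]
    have e3 : ‖b m * (starRingEnd ℂ) (b 0) / (D : ℂ)‖ = ‖b m‖ * ‖b 0‖ / D := by
      rw [norm_div, norm_mul, Complex.norm_real, Real.norm_eq_abs, abs_of_pos hD, RCLike.norm_conj]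
    rw [e2, e3] at hx
    have hx2 : (‖b m‖ / D) ^ 2 * D ≤ D := by
      have : (‖b m‖ * ‖b 0‖ / D) ^ 2 = (‖b m‖ / D) ^ 2 * ‖b 0‖ ^ 2 := by ring
      rw [this] at hx
      have h4 : ‖b 0‖ ^ 2 = 1 - D := by rw [hDdef]; ring
      rw [h4] at hx
      linarith
    have hx3 : (‖b m‖ / D) ^ 2 ≤ 1 := by
      by_contra hcon
      push Not at hcon
      nlinarith
    have hx4 : ‖b m‖ / D ≤ 1 := by
      have : 0 ≤ ‖b m‖ / D := by positivity
      nlinarith
    rwa [div_le_one hD] at hx4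

end Pool.Agent.T2H70.BH
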