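import Mathlib

set_option autoImplicit false

open Metric
open scoped ENNReal

namespace Pool.Agent.T2H70.BH

/-- The `n`-th Taylor coefficient at the origin. -/
noncomputable def tc (f : ℂ → ℂ) (n : ℕ) : ℂ := iteratedDeriv n f 0 / (n.factorial : ℂ)

/-- The pair `(h, g)` gives a harmonic mapping `f = h + conj g` of the class `F_K`:
`h`, `g` are analytic in the unit disc and vanish at the origin, `h` is bounded, and
`|g'| ≤ (K - 1) / (K + 1) * |h'|` in the disc. -/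
structure InClass (K : ℝ) (h g : ℂ → ℂ) : Prop where
  h_an : DifferentiableOn ℂ h (ball 0 1)
  g_an : DifferentiableOn ℂ g (ball 0 1)
  h_zero : h 0 = 0
  g_zero : g 0 = 0
  h_bdd : BddAbove ((fun z => ‖h z‖) '' ball (0 : ℂ) 1)
  dil : ∀ z ∈ ball (0 : ℂ) 1, ‖deriv g z‖ ≤ (K - 1) / (K + 1) * ‖deriv h z‖

/-- The supremum norm of `h` over the unit disc. -/
noncomputable def supNorm (h : ℂ → ℂ) : ℝ := sSup ((fun z => ‖h z‖) '' ball (0 : ℂ) 1)

/-- The sum `∑_{n ≥ 1} (|a_n| + |b_n|) r^n` as an extended nonnegative real number. -/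
noncomputable def bohrSum (h g : ℂ → ℂ) (r : ℝ) : ℝ≥0∞ :=
  ∑' n : ℕ, ENNReal.ofReal ((‖tc h (n + 1)‖ + ‖tc g (n + 1)‖) * r ^ (n + 1))

/-- The radius `r_K`. -/
noncomputable def rK (K : ℝ) : ℝ := 1 / 4 * Real.sqrt (7 / 2 - 1 / (2 * K ^ 2) + 5 / K)

end Pool.Agent.T2H70.BH
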