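import Pool.Agent.T2H70.BH.Bound
import Pool.Agent.T2H70.BH.Defs

set_option autoImplicit false

open Metric Complex Filter Topology Set
open Pool.Agent.Helper610.Bohr
open scoped ENNReal

namespace Pool.Agent.T2H70.BH

lemma tc_eq (f : ℂ → ℂ) : tc f = coeff f := rfl

lemma rad {K : ℝ} (hK : 1 < K) : Rad ((K - 1) / (K + 1)) (rK K) (5 / 8 - 1 / (8 * K)) := by
  have hK0 : 0 < K := by linarith
  have h1 : 0 < 1 / (2 * K ^ 2) := by positivity
  have h2 : 1 / (2 * K ^ 2) < 1 / 2 := by
    apply div_lt_div_of_pos_left one_pos (by norm_num)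
    nlinarith
  have h3 : 0 < 5 / K := by positivity
  have h4 : 0 < 7 / 2 - 1 / (2 * K ^ 2) + 5 / K := by linarith
  refine ⟨?_, ?_, ?_, ?_, ?_, ?_, ?_⟩
  · apply div_pos <;> linarith
  · rw [div_lt_one (by linarith)]; linarith
  · unfold rK
    have := Real.sqrt_pos.2 h4
    positivity
  · have : 1 / (8 * K) < 1 / 8 := by
      apply div_lt_div_of_pos_left one_pos (by norm_num)
      linarith
    linarith
  · have : 0 < 1 / (8 * K) := by positivity
    linarith
  · unfold rK
    rw [mul_pow, Real.sq_sqrt h4.le]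
    field_simp
    ring
  · have : K + 1 ≠ 0 := by linarith
    field_simp
    ring

/-- the case of a vanishing derivative -/
lemma deg_case {f : ℂ → ℂ} (hf : DifferentiableOn ℂ f (ball 0 1)) (h0 : f 0 = 0)
    (hd : ∀ z ∈ ball (0 : ℂ) 1, deriv f z = 0) : ∀ z ∈ ball (0 : ℂ) 1, f z = 0 := by
  intro z hz
  have h1 := (convex_ball (0 : ℂ) 1).norm_image_sub_le_of_norm_deriv_le (f := f) (C := 0)
    (x := 0) (y := z) (fun x hx => (hf.differentiableAt (isOpen_ball.mem_nhds hx)))
    (fun x hx => by rw [hd x hx]; simp) (by simp) hz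
  rw [h0, sub_zero, zero_mul] at h1
  exact norm_le_zero_iff.1 h1

lemma coeff_zero_of {f : ℂ → ℂ} (hf : DifferentiableOn ℂ f (ball 0 1))
    (hd : ∀ z ∈ ball (0 : ℂ) 1, f z = 0) (n : ℕ) : coeff f n = 0 := by
  have h1 : PS f (fun n => if n = 0 then (0 : ℂ) else 0) :=
    (PS.const 0).congr (fun z hz => by rw [hd z (by simpa using hz)])
  have h2 := congrFun ((PS.of_diff hf).unique h1) n
  rw [h2]; simp

theorem part_one {K : ℝ} (hK : 1 < K) {h g : ℂ → ℂ} (C : InClass K h g) {r : ℝ} (h0 : 0 ≤ r)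
    (hr : r ≤ rK K) : bohrSum h g r ≤ ENNReal.ofReal (supNorm h) := by
  have Q := rad hK
  set k : ℝ := (K - 1) / (K + 1) with hk
  have hk0 : 0 < k := Q.k0
  have hsup : ∀ z ∈ ball (0 : ℂ) 1, ‖h z‖ ≤ supNorm h := by
    intro z hz
    exact le_csSup C.h_bdd ⟨z, hz, rfl⟩
  have hM0 : 0 ≤ supNorm h := (norm_nonneg (h 0)).trans (hsup 0 (by simp))
  have hN : ∀ N, ∑ n ∈ Finset.range N, (‖tc h (n + 1)‖ + ‖tc g (n + 1)‖) * r ^ (n + 1)
      ≤ supNorm h := by
    intro N
    by_cases hne : ∃ z ∈ ball (0 : ℂ) 1, deriv h z ≠ 0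
    · obtain ⟨w₁, hw1, hw2, hw3⟩ := exists_quot (deriv g) (deriv h) k (C.g_an.deriv isOpen_ball)
        (C.h_an.deriv isOpen_ball) C.dil hne
      set M := supNorm h with hM
      have hMpos : 0 < M := by
        rcases eq_or_lt_of_le hM0 with h1 | h1
        · exfalso
          obtain ⟨z, hz, hz0⟩ := hne
          apply hz0
          have : h =ᶠ[𝓝 z] fun _ => (0 : ℂ) := by
            filter_upwards [isOpen_ball.mem_nhds hz] with x hx
            have := hsup x hx
            rw [← h1] at this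
            exact norm_le_zero_iff.1 this
          rw [this.deriv_eq]; simp
        · exact h1
      have hMc : (M : ℂ) ≠ 0 := by exact_mod_cast hMpos.ne'
      have hkc : (k : ℂ) ≠ 0 := by exact_mod_cast hk0.ne'
      have D : Dat k (fun z => (M : ℂ)⁻¹ * h z) (fun z => (M : ℂ)⁻¹ * g z) (fun z => (k : ℂ)⁻¹ * w₁ z)
          (fun n => (M : ℂ)⁻¹ * coeff h n) (fun n => (M : ℂ)⁻¹ * coeff g n) :=
        { k0 := hk0
          k1 := Q.k1
          hd := C.h_an.const_mul _
          gd := C.g_an.const_mul _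
          wd := hw1.const_mul _
          hp := (PS.of_diff C.h_an).const_mul _
          gp := (PS.of_diff C.g_an).const_mul _
          a0 := by simp [coeff, C.h_zero]
          b0 := by simp [coeff, C.g_zero]
          hb := by
            intro z hz
            rw [norm_mul, norm_inv, Complex.norm_real, Real.norm_eq_abs, abs_of_pos hMpos]
            rw [inv_mul_le_iff₀ hMpos, mul_one]
            exact hsup z (by simpa using hz)
          wb := by
            intro z hz
            rw [norm_mul, norm_inv, Complex.norm_real, Real.norm_eq_abs, abs_of_pos hk0]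
            rw [inv_mul_le_iff₀ hk0, mul_one]
            exact hw2 z hz
          eq := by
            intro z hz
            have hzb : z ∈ ball (0 : ℂ) 1 := by simpa using hz
            have e1 : deriv (fun z => (M : ℂ)⁻¹ * g z) z = (M : ℂ)⁻¹ * deriv g z := by
              simp
            have e2 : deriv (fun z => (M : ℂ)⁻¹ * h z) z = (M : ℂ)⁻¹ * deriv h z := by
              simp
            rw [e1, e2, hw3 z hzb]
            field_simp }
      have hb := D.bound Q N
      rw [← Finset.sum_add_distrib] at hb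
      have h2 : ∑ n ∈ Finset.range N, (‖tc h (n + 1)‖ + ‖tc g (n + 1)‖) * r ^ (n + 1)
          ≤ M * ∑ n ∈ Finset.range N, (‖(M : ℂ)⁻¹ * coeff h (n + 1)‖ * rK K ^ (n + 1)
            + ‖(M : ℂ)⁻¹ * coeff g (n + 1)‖ * rK K ^ (n + 1)) := by
        rw [Finset.mul_sum]
        apply Finset.sum_le_sum
        intro n _
        rw [norm_mul, norm_mul, norm_inv, Complex.norm_real, Real.norm_eq_abs, abs_of_pos hMpos]
        rw [tc_eq, tc_eq]
        calc (‖coeff h (n + 1)‖ + ‖coeff g (n + 1)‖) * r ^ (n + 1)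
            ≤ (‖coeff h (n + 1)‖ + ‖coeff g (n + 1)‖) * rK K ^ (n + 1) := by gcongr
          _ = _ := by field_simp
      refine h2.trans ?_
      calc M * _ ≤ M * 1 := mul_le_mul_of_nonneg_left hb hMpos.le
        _ = M := mul_one M
    · push Not at hne
      have e1 := deg_case C.h_an C.h_zero hne
      have e2 := deg_case C.g_an C.g_zero (by
        intro z hz
        have := C.dil z hz
        rw [hne z hz, norm_zero, mul_zero] at this
        exact norm_le_zero_iff.1 this)
      have : ∀ n ∈ Finset.range N, (‖tc h (n + 1)‖ + ‖tc g (n + 1)‖) * r ^ (n + 1) = 0 := by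
        intro n _
        rw [tc_eq, tc_eq, coeff_zero_of C.h_an e1, coeff_zero_of C.g_an e2]
        simp
      rw [Finset.sum_eq_zero this]
      exact hM0
  unfold bohrSum
  apply ENNReal.tsum_le_of_sum_range_le
  intro N
  rw [← ENNReal.ofReal_sum_of_nonneg (fun i _ => by positivity)]
  exact ENNReal.ofReal_le_ofReal (hN N)

/-- the extremal function -/
noncomputable def ext (α : ℝ) (z : ℂ) : ℂ := z * ((α : ℂ) - z) / (1 - (α : ℂ) * z)

lemma den_ne {α : ℝ} (h0 : 0 < α) (h1 : α < 1) {z : ℂ} (hz : ‖z‖ < 1) : 1 - (α : ℂ) * z ≠ 0 := by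
  intro hcon
  have : (α : ℂ) * z = 1 := (sub_eq_zero.1 hcon).symm
  have h2 : ‖(α : ℂ) * z‖ = 1 := by rw [this]; simp
  rw [norm_mul, Complex.norm_real, Real.norm_eq_abs, abs_of_pos h0] at h2
  nlinarith [norm_nonneg z]

lemma ext_diff {α : ℝ} (h0 : 0 < α) (h1 : α < 1) : DifferentiableOn ℂ (ext α) (ball 0 1) := by
  unfold ext
  apply DifferentiableOn.div
  · fun_prop
  · fun_prop
  · intro z hz
    exact den_ne h0 h1 (by simpa using hz)

lemma ext_le {α : ℝ} (h0 : 0 < α) (h1 : α < 1) {z : ℂ} (hz : ‖z‖ < 1) : ‖ext α z‖ ≤ 1 := by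
  unfold ext
  have hd := den_ne h0 h1 hz
  rw [norm_div, norm_mul, div_le_one (norm_pos_iff.2 hd)]
  have h2 : ‖(α : ℂ) - z‖ ≤ ‖1 - (α : ℂ) * z‖ := by
    apply le_of_sq_le_sq _ (norm_nonneg _)
    rw [← Complex.normSq_eq_norm_sq, ← Complex.normSq_eq_norm_sq]
    have hz2 : Complex.normSq z < 1 := by
      rw [Complex.normSq_eq_norm_sq]; nlinarith [norm_nonneg z]
    rw [Complex.normSq_apply] at hz2 ⊢
    rw [Complex.normSq_apply]
    simp
    have h3 : 0 ≤ (1 - α ^ 2) * (1 - (z.re * z.re + z.im * z.im)) := by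
      apply mul_nonneg <;> nlinarith
    have h4 : (1 - α * z.re) * (1 - α * z.re) + α * z.im * (α * z.im)
        = (α - z.re) * (α - z.re) + z.im * z.im
          + (1 - α ^ 2) * (1 - (z.re * z.re + z.im * z.im)) := by ring
    rw [h4]
    linarith
  calc ‖z‖ * ‖(α : ℂ) - z‖ ≤ 1 * ‖1 - (α : ℂ) * z‖ := by
        apply mul_le_mul hz.le h2 (norm_nonneg _) zero_le_one
    _ = _ := one_mul _

/-- the coefficients of the extremal function -/
noncomputable def ec (α : ℝ) (n : ℕ) : ℂ :=
  match n with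
  | 0 => 0
  | 1 => (α : ℂ)
  | (n + 2) => -((1 - (α : ℂ) ^ 2) * (α : ℂ) ^ n)

lemma ext_PS {α : ℝ} (h0 : 0 < α) (h1 : α < 1) : PS (ext α) (ec α) := by
  intro z hz
  have hd := den_ne h0 h1 hz
  rw [← hasSum_nat_add_iff' 2]
  have hg : HasSum (fun n : ℕ => ((α : ℂ) * z) ^ n) (1 - (α : ℂ) * z)⁻¹ := by
    apply hasSum_geometric_of_norm_lt_one
    rw [norm_mul, Complex.norm_real, Real.norm_eq_abs, abs_of_pos h0]
    nlinarith [norm_nonneg z]
  have h2 := hg.mul_left (-(1 - (α : ℂ) ^ 2) * z ^ 2)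
  have e1 : ext α z - ∑ i ∈ Finset.range 2, ec α i * z ^ i
      = -(1 - (α : ℂ) ^ 2) * z ^ 2 * (1 - (α : ℂ) * z)⁻¹ := by
    have e2 : ext α z * (1 - (α : ℂ) * z) = z * ((α : ℂ) - z) := by
      unfold ext
      rw [div_mul_cancel₀ _ hd]
    rw [eq_mul_inv_iff_mul_eq₀ hd]
    simp only [Finset.sum_range_succ, Finset.sum_range_zero, ec]
    linear_combination e2
  rw [e1]
  refine h2.congr_fun (fun n => ?_)
  simp only [ec]
  rw [mul_pow, pow_add]
  ring

theorem part_two {K : ℝ} (hK : 1 < K) {r : ℝ} (hr : rK K < r) :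
    ∃ h g : ℂ → ℂ, InClass K h g ∧ ENNReal.ofReal (supNorm h) < bohrSum h g r := by
  have Q := rad hK
  set k : ℝ := (K - 1) / (K + 1) with hk
  set v : ℝ := 5 / 8 - 1 / (8 * K) with hv
  set ρ : ℝ := rK K with hρ
  have hk0 : 0 < k := Q.k0
  have hρ0 : 0 < ρ := Q.r0
  have hv1 := Q.v1
  have hv2 := Q.v2
  have hρ2 := Q.hr
  set α : ℝ := (1 - v) / ρ with hα
  have hα0 : 0 < α := div_pos (by linarith) hρ0
  have hα1 : α < 1 := by
    rw [hα, div_lt_one hρ0]
    by_contra hcon
    push Not at hcon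
    nlinarith
  have hαρ : α * ρ = 1 - v := by rw [hα]; field_simp
  have hext := ext_PS hα0 hα1
  have hextd := ext_diff hα0 hα1
  have hc : coeff (ext α) = ec α := (PS.of_diff hextd).unique hext
  have hcg : coeff (fun z => (k : ℂ) * ext α z) = fun n => (k : ℂ) * ec α n :=
    (PS.of_diff (hextd.const_mul _)).unique (hext.const_mul _)
  have hbd : BddAbove ((fun z => ‖ext α z‖) '' ball (0 : ℂ) 1) := by
    refine ⟨1, ?_⟩
    rintro _ ⟨z, hz, rfl⟩
    exact ext_le hα0 hα1 (by simpa using hz)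
  refine ⟨ext α, fun z => (k : ℂ) * ext α z, ⟨hextd, hextd.const_mul _, ?_, ?_, hbd, ?_⟩, ?_⟩
  · simp [ext]
  · simp [ext]
  · intro z _
    have e1 : deriv (fun z => (k : ℂ) * ext α z) z = (k : ℂ) * deriv (ext α) z := by
      simp
    rw [e1, norm_mul, Complex.norm_real, Real.norm_eq_abs, abs_of_pos hk0]
  · have hsup : supNorm (ext α) ≤ 1 := by
      apply csSup_le
      · exact ⟨‖ext α 0‖, 0, by simp, rfl⟩
      · rintro _ ⟨z, hz, rfl⟩
        exact ext_le hα0 hα1 (by simpa using hz)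
    set A : ℕ → ℝ := fun n => ‖tc (ext α) (n + 1)‖ + ‖tc (fun z => (k : ℂ) * ext α z) (n + 1)‖ with hA
    have hA0 : ∀ n, 0 ≤ A n := fun n => by positivity
    have hAeq : ∀ n, A n = (1 + k) * ‖ec α (n + 1)‖ := by
      intro n
      simp only [hA, tc_eq, hc, hcg]
      rw [norm_mul, Complex.norm_real, Real.norm_eq_abs, abs_of_pos hk0]
      ring
    have hA1 : A 0 = (1 + k) * α := by
      rw [hAeq]
      simp [ec, abs_of_pos hα0]
    have hA2 : ∀ n, A (n + 1) = (1 + k) * ((1 - α ^ 2) * α ^ n) := by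
      intro n
      rw [hAeq]
      congr 1
      simp only [ec]
      rw [norm_neg, norm_mul, norm_pow, Complex.norm_real, Real.norm_eq_abs, abs_of_pos hα0]
      congr 1
      have : (1 - (α : ℂ) ^ 2) = ((1 - α ^ 2 : ℝ) : ℂ) := by push_cast; rfl
      rw [this, Complex.norm_real, Real.norm_eq_abs, abs_of_pos]
      nlinarith
    have hsum : HasSum (fun n => A n * ρ ^ (n + 1)) 1 := by
      rw [← hasSum_nat_add_iff' 1]
      have hg : HasSum (fun n : ℕ => (α * ρ) ^ n) (1 - α * ρ)⁻¹ := by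
        apply hasSum_geometric_of_lt_one (by positivity)
        rw [hαρ]; linarith
      have h2 := hg.mul_left ((1 + k) * (1 - α ^ 2) * ρ ^ 2)
      have e1 : (1 : ℝ) - ∑ i ∈ Finset.range 1, A i * ρ ^ (i + 1)
          = (1 + k) * (1 - α ^ 2) * ρ ^ 2 * (1 - α * ρ)⁻¹ := by
        rw [Finset.sum_range_one, hA1]
        have e2 : (1 + k) * (1 - α ^ 2) * ρ ^ 2 = (1 + k) * (ρ ^ 2 - (α * ρ) ^ 2) := by ring
        have e3 : (1 + k) * α * ρ ^ (0 + 1) = (1 + k) * (α * ρ) := by ring
        rw [e2, e3, hαρ, hρ2]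
        have hv0 : (1 - (1 - v)) = v := by ring
        rw [hv0, eq_mul_inv_iff_mul_eq₀ (by linarith)]
        have := Q.hk
        linear_combination (-v) * this
      rw [e1]
      refine h2.congr_fun (fun n => ?_)
      rw [hA2, mul_pow]
      ring
    have hεpos : 0 < A 0 * (r - ρ) := by
      rw [hA1]
      apply mul_pos (by positivity)
      linarith
    have ht := hsum.tendsto_sum_nat
    have hev : ∀ᶠ N in atTop, 1 - A 0 * (r - ρ) < ∑ n ∈ Finset.range N, A n * ρ ^ (n + 1) :=
      ht.eventually (lt_mem_nhds (by linarith))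
    obtain ⟨N, hN, hN1⟩ := (hev.and (eventually_ge_atTop 1)).exists
    have hfin : 1 < ∑ n ∈ Finset.range N, A n * r ^ (n + 1) := by
      have h3 : A 0 * (r - ρ) ≤ ∑ n ∈ Finset.range N, (A n * r ^ (n + 1) - A n * ρ ^ (n + 1)) := by
        have h4 : ∀ n ∈ Finset.range N, 0 ≤ A n * r ^ (n + 1) - A n * ρ ^ (n + 1) := by
          intro n _
          have : ρ ^ (n + 1) ≤ r ^ (n + 1) := pow_le_pow_left₀ hρ0.le hr.le _
          nlinarith [hA0 n, mul_le_mul_of_nonneg_left this (hA0 n)]
        have h5 := Finset.single_le_sum h4 (Finset.mem_range.2 (show 0 < N by omega))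
        refine le_trans (le_of_eq ?_) h5
        simp
        ring
      rw [Finset.sum_sub_distrib] at h3
      linarith
    calc ENNReal.ofReal (supNorm (ext α)) ≤ ENNReal.ofReal 1 := ENNReal.ofReal_le_ofReal hsup
      _ < ENNReal.ofReal (∑ n ∈ Finset.range N, A n * r ^ (n + 1)) :=
          (ENNReal.ofReal_lt_ofReal_iff (by linarith)).2 hfin
      _ = ∑ n ∈ Finset.range N, ENNReal.ofReal (A n * r ^ (n + 1)) := by
          rw [ENNReal.ofReal_sum_of_nonneg]
          intro i _
          have := hA0 i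
          have : 0 < r := by linarith
          positivity
      _ ≤ bohrSum (ext α) (fun z => (k : ℂ) * ext α z) r := by
          unfold bohrSum
          exact ENNReal.sum_le_tsum _

end Pool.Agent.T2H70.BH
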