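import Pool.Agent.T2H70.BH.Coef

set_option autoImplicit false

open Metric Complex Filter Topology Set MeasureTheory
open Pool.Agent.Helper610.Bohr

namespace Pool.Agent.T2H70.BH

/-- quadratic mean on the circle `|z|^2 = s` -/
noncomputable def J (f : ℂ → ℂ) (s : ℝ) : ℝ :=
  (2 * Real.pi)⁻¹ * ∫ θ in (0 : ℝ)..(2 * Real.pi), ‖f (pt (Real.sqrt s) θ)‖ ^ 2

lemma sqrt_lt_one' {s : ℝ} (h1 : s < 1) : Real.sqrt s < 1 := by
  rw [Real.sqrt_lt' one_pos, one_pow]; exact h1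

lemma pars {f : ℂ → ℂ} {a : ℕ → ℂ} (hf : PS f a) (hd : DifferentiableOn ℂ f (ball 0 1)) {s : ℝ}
    (h0 : 0 ≤ s) (h1 : s < 1) : HasSum (fun n => ‖a n‖ ^ 2 * s ^ n) (J f s) := by
  have := hf.parseval hd (Real.sqrt_nonneg s) (sqrt_lt_one' h1)
  refine this.congr_fun (fun n => ?_)
  rw [pow_mul, Real.sq_sqrt h0]

lemma pars_le {F G : ℂ → ℂ} (hF : DifferentiableOn ℂ F (ball 0 1))
    (hG : DifferentiableOn ℂ G (ball 0 1)) {s C : ℝ} (h0 : 0 ≤ s) (h1 : s < 1)
    (h : ∀ z : ℂ, ‖z‖ < 1 → ‖z‖ ^ 2 = s → ‖F z‖ ^ 2 ≤ C * ‖G z‖ ^ 2) : J F s ≤ C * J G s := by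
  unfold J
  have hcG : Continuous (fun θ : ℝ => G (pt (Real.sqrt s) θ)) := by
    refine hG.continuousOn.comp_continuous (continuous_pt _) (fun θ => ?_)
    rw [mem_ball_zero_iff, norm_pt (Real.sqrt_nonneg s)]
    exact sqrt_lt_one' h1
  have h2 := integral_norm_sq_le hF (Real.sqrt_nonneg s) (sqrt_lt_one' h1)
    (M := fun θ => C * ‖G (pt (Real.sqrt s) θ)‖ ^ 2) (continuous_const.mul (hcG.norm.pow 2)) (fun θ => by
      apply h
      · rw [norm_pt (Real.sqrt_nonneg s)]; exact sqrt_lt_one' h1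
      · rw [norm_pt (Real.sqrt_nonneg s), Real.sq_sqrt h0])
  refine h2.trans (le_of_eq ?_)
  rw [intervalIntegral.integral_const_mul]
  ring

lemma PS_deriv {f : ℂ → ℂ} {a : ℕ → ℂ} (hf : PS f a) (hd : DifferentiableOn ℂ f (ball 0 1)) :
    PS (deriv f) (fun n : ℕ => ((n : ℂ) + 1) * a (n + 1)) := by
  have h1 : a = coeff f := hf.unique (PS.of_diff hd)
  have h2 : DifferentiableOn ℂ (deriv f) (ball 0 1) := hd.deriv isOpen_ball
  have h3 := PS.of_diff h2
  have h4 : coeff (deriv f) = fun n : ℕ => ((n : ℂ) + 1) * a (n + 1) := by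
    funext n
    rw [h1]
    unfold coeff
    rw [iteratedDeriv_succ', Nat.factorial_succ]
    have : ((n : ℂ) + 1) ≠ 0 := Nat.cast_add_one_ne_zero n
    have h5 : (n.factorial : ℂ) ≠ 0 := by exact_mod_cast n.factorial_ne_zero
    push_cast
    field_simp
  rw [← h4]
  exact h3

/-- termwise integration of a nonnegative power series -/
lemma int_nonneg (e : ℕ → ℝ) (he : ∀ s, 0 ≤ s → s < 1 → Summable (fun n => |e n| * s ^ n))
    (h : ∀ s, 0 ≤ s → s < 1 → 0 ≤ ∑' n, e n * s ^ n) (s : ℝ) (h0 : 0 ≤ s) (h1 : s < 1) :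
    0 ≤ ∑' n, e n / (n + 1) * s ^ n := by
  have h2 : HasSum (fun n : ℕ => ∫ t in (0 : ℝ)..1, e n * (s * t) ^ n)
      (∫ t in (0 : ℝ)..1, ∑' n, e n * (s * t) ^ n) := by
    apply intervalIntegral.hasSum_integral_of_dominated_convergence
      (fun n _ => |e n| * s ^ n)
    · intro n
      apply Continuous.aestronglyMeasurable
      fun_prop
    · intro n
      apply Eventually.of_forall
      intro t ht
      rw [uIoc_of_le zero_le_one] at ht
      rw [norm_mul, Real.norm_eq_abs, norm_pow, Real.norm_eq_abs,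
        abs_of_nonneg (mul_nonneg h0 ht.1.le)]
      apply mul_le_mul_of_nonneg_left _ (abs_nonneg _)
      apply pow_le_pow_left₀ (mul_nonneg h0 ht.1.le)
      nlinarith [ht.2]
    · apply Eventually.of_forall
      intro t _
      exact he s h0 h1
    · exact intervalIntegrable_const
    · apply Eventually.of_forall
      intro t ht
      rw [uIoc_of_le zero_le_one] at ht
      apply Summable.hasSum
      apply Summable.of_norm
      have hst0 : 0 ≤ s * t := mul_nonneg h0 ht.1.le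
      have hst1 : s * t < 1 := by nlinarith [ht.2, ht.1]
      refine (he (s * t) hst0 hst1).congr (fun n => ?_)
      rw [norm_mul, Real.norm_eq_abs, norm_pow, Real.norm_eq_abs, abs_of_nonneg hst0]
  have h3 : (fun n : ℕ => ∫ t in (0 : ℝ)..1, e n * (s * t) ^ n)
      = fun n : ℕ => e n / (n + 1) * s ^ n := by
    funext n
    have : ∀ t : ℝ, e n * (s * t) ^ n = (e n * s ^ n) * t ^ n := by
      intro t; rw [mul_pow]; ring
    simp only [this]
    rw [intervalIntegral.integral_const_mul, integral_pow]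
    simp
    ring
  rw [h3] at h2
  rw [h2.tsum_eq]
  apply intervalIntegral.integral_nonneg zero_le_one
  intro t ht
  rcases eq_or_lt_of_le ht.2 with ht1 | ht1
  · rw [ht1, mul_one]; exact h s h0 h1
  · exact h (s * t) (mul_nonneg h0 ht.1) (by nlinarith [ht.1])

/-- normalised data -/
structure Dat (k : ℝ) (h g w : ℂ → ℂ) (a b : ℕ → ℂ) : Prop where
  k0 : 0 < k
  k1 : k < 1
  hd : DifferentiableOn ℂ h (ball 0 1)
  gd : DifferentiableOn ℂ g (ball 0 1)
  wd : DifferentiableOn ℂ w (ball 0 1)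
  hp : PS h a
  gp : PS g b
  a0 : a 0 = 0
  b0 : b 0 = 0
  hb : ∀ z : ℂ, ‖z‖ < 1 → ‖h z‖ ≤ 1
  wb : ∀ z ∈ ball (0 : ℂ) 1, ‖w z‖ ≤ 1
  eq : ∀ z : ℂ, ‖z‖ < 1 → deriv g z = k * w z * deriv h z

namespace Dat

variable {k : ℝ} {h g w : ℂ → ℂ} {a b : ℕ → ℂ} (D : Dat k h g w a b)

include D

lemma h_zero : h 0 = 0 := by
  have h1 := D.hp 0 (by simp)
  have h2 : HasSum (fun n : ℕ => a n * (0 : ℂ) ^ n) (a 0) := by
    have := hasSum_single (f := fun n : ℕ => a n * (0 : ℂ) ^ n) 0 (by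
      intro n hn; simp [hn])
    simpa using this
  rw [h1.unique h2, D.a0]

/-- the function `h(z)/z` -/
lemma exists_phi : ∃ φ : ℂ → ℂ, DifferentiableOn ℂ φ (ball 0 1) ∧ PS φ (fun n => a (n + 1)) ∧
    (∀ z ∈ ball (0 : ℂ) 1, ‖φ z‖ ≤ 1) ∧ φ 0 = a 1 := by
  set φ := dslope h 0 with hφ
  have hφd : DifferentiableOn ℂ φ (ball 0 1) :=
    (Complex.differentiableOn_dslope (ball_mem_nhds 0 one_pos)).2 D.hd
  have hmul : ∀ z, h z = z * φ z := by
    intro z
    have := sub_smul_dslope h 0 z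
    rw [D.h_zero, sub_zero, sub_zero, smul_eq_mul] at this
    exact this.symm
  have hps := PS.of_diff hφd
  have h1 : PS h (shiftSeq (coeff φ)) := by
    refine (hps.shift).congr (fun z _ => ?_)
    exact hmul z
  have h2 : a = shiftSeq (coeff φ) := D.hp.unique h1
  have h3 : coeff φ = fun n => a (n + 1) := by
    funext n
    rw [h2]
    rfl
  have hφ0 : φ 0 = a 1 := by
    have e := congrFun h3 0
    simp only [zero_add] at e
    rw [← e]
    simp [coeff]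
  refine ⟨φ, hφd, by rw [← h3]; exact hps, ?_, hφ0⟩
  have hne : ∀ z ∈ ball (0 : ℂ) 1, z ≠ 0 → ‖φ z‖ ≤ 1 := by
    intro z hz hz0
    have hz' : ‖z‖ < 1 := by simpa using hz
    have h4 : ‖h z‖ ≤ ‖z‖ := by
      apply norm_le_norm_of_mapsTo_ball D.hd _ D.h_zero hz'
      intro x hx
      rw [mem_closedBall_zero_iff]
      exact D.hb x (by simpa using hx)
    rw [hmul z, norm_mul] at h4
    have h5 : 0 < ‖z‖ := norm_pos_iff.2 hz0
    exact le_of_mul_le_mul_left (by linarith) h5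
  intro z hz
  by_cases hz0 : z = 0
  · have hc : Tendsto φ (𝓝[≠] (0 : ℂ)) (𝓝 (φ 0)) :=
      ((hφd.differentiableAt (isOpen_ball.mem_nhds (by simp))).continuousAt.tendsto).mono_left
        nhdsWithin_le_nhds
    rw [hz0]
    refine le_of_tendsto hc.norm ?_
    have h1 : ∀ᶠ x in 𝓝[≠] (0 : ℂ), x ∈ ball (0 : ℂ) 1 :=
      nhdsWithin_le_nhds (isOpen_ball.mem_nhds (by simp))
    filter_upwards [h1, self_mem_nhdsWithin] with x hx hx0
    exact hne x hx hx0
  · exact hne z hz hz0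

/-- the mean square of the tail of `h` -/
theorem tail_h {s : ℝ} (h0 : 0 ≤ s) (h1 : s < 1) : ∃ S : ℝ,
    HasSum (fun n => ‖a (n + 2)‖ ^ 2 * s ^ (n + 1)) S ∧ 0 ≤ S ∧ ‖a 1‖ ≤ 1 ∧
    S * (1 - ‖a 1‖ ^ 2 * s) ≤ s * (1 - ‖a 1‖ ^ 2) ^ 2 := by
  obtain ⟨φ, hφd, hφp, hφb, hφ0⟩ := D.exists_phi
  have hp := pars hφp hφd h0 h1
  have hS : HasSum (fun n => ‖a (n + 2)‖ ^ 2 * s ^ (n + 1)) (J φ s - ‖a 1‖ ^ 2) := by
    have := (hasSum_nat_add_iff' 1).2 hp
    simpa using this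
  have hc1 : ‖a 1‖ ≤ 1 := by rw [← hφ0]; exact hφb 0 (by simp)
  refine ⟨_, hS, hS.nonneg (fun n => by positivity), hc1, ?_⟩
  set S := J φ s - ‖a 1‖ ^ 2 with hSdef
  -- the two auxiliary functions
  have hFp : PS (fun z => φ z - a 1) (fun n => a (n + 1) - (if n = 0 then a 1 else 0)) :=
    hφp.sub (PS.const (a 1))
  have hFd : DifferentiableOn ℂ (fun z => φ z - a 1) (ball 0 1) := hφd.sub_const _
  have hGp : PS (fun z => 1 - (starRingEnd ℂ) (a 1) * φ z)
      (fun n => (if n = 0 then 1 else 0) - (starRingEnd ℂ) (a 1) * a (n + 1)) :=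
    (PS.const 1).sub (hφp.const_mul _)
  have hGd : DifferentiableOn ℂ (fun z => 1 - (starRingEnd ℂ) (a 1) * φ z) (ball 0 1) :=
    (hφd.const_mul _).const_sub _
  have hF := pars hFp hFd h0 h1
  have hG := pars hGp hGd h0 h1
  have hF' : J (fun z => φ z - a 1) s = S := by
    have e1 := (hasSum_nat_add_iff' 1).2 hF
    simp only [Finset.sum_range_one, zero_add, if_true, sub_self, norm_zero, pow_zero,
      mul_one, Nat.add_eq_zero_iff, one_ne_zero, and_false, if_false, sub_zero] at e1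
    norm_num at e1
    exact e1.unique hS
  have hG' : J (fun z => 1 - (starRingEnd ℂ) (a 1) * φ z) s
      = (1 - ‖a 1‖ ^ 2) ^ 2 + ‖a 1‖ ^ 2 * S := by
    have e1 := (hasSum_nat_add_iff' 1).2 hG
    have e2 : HasSum (fun n => ‖a 1‖ ^ 2 * (‖a (n + 2)‖ ^ 2 * s ^ (n + 1))) (‖a 1‖ ^ 2 * S) :=
      hS.mul_left _
    have e3 : ∀ n : ℕ, ‖(if n + 1 = 0 then (1 : ℂ) else 0) - (starRingEnd ℂ) (a 1) * a (n + 1 + 1)‖ ^ 2
        * s ^ (n + 1) = ‖a 1‖ ^ 2 * (‖a (n + 2)‖ ^ 2 * s ^ (n + 1)) := by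
      intro n
      rw [if_neg (Nat.succ_ne_zero n), zero_sub, norm_neg, norm_mul, RCLike.norm_conj, mul_pow]
      ring
    have e4 := e1.unique (e2.congr_fun (fun n => e3 n))
    have e5 : ‖(1 : ℂ) - (starRingEnd ℂ) (a 1) * a 1‖ ^ 2 = (1 - ‖a 1‖ ^ 2) ^ 2 := by
      have : (starRingEnd ℂ) (a 1) * a 1 = ((‖a 1‖ ^ 2 : ℝ) : ℂ) := by
        rw [mul_comm, Complex.mul_conj, Complex.normSq_eq_norm_sq]
      rw [this, ← Complex.ofReal_one, ← Complex.ofReal_sub, Complex.norm_real, Real.norm_eq_abs,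
        sq_abs]
    simp only [Finset.sum_range_one, zero_add, if_true, pow_zero, mul_one] at e4
    rw [e5] at e4
    linarith
  have hle : J (fun z => φ z - a 1) s ≤ s * J (fun z => 1 - (starRingEnd ℂ) (a 1) * φ z) s := by
    apply pars_le hFd hGd h0 h1
    intro z hz hzs
    have e1 := schwarz_pick φ hφd hφb hz
    rw [hφ0] at e1
    rw [← hzs, ← mul_pow]
    exact pow_le_pow_left₀ (norm_nonneg _) e1 2
  rw [hF', hG'] at hle
  linarith

end Dat

end Pool.Agent.T2H70.BH
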