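import Pool.Agent.T2H70.BH.L2

set_option autoImplicit false

open Metric Complex Filter Topology Set MeasureTheory
open Pool.Agent.Helper610.Bohr

namespace Pool.Agent.T2H70.BH

namespace Dat

variable {k : ℝ} {h g w : ℂ → ℂ} {a b : ℕ → ℂ} (D : Dat k h g w a b)

include D

lemma w0_le : ‖w 0‖ ≤ 1 := D.wb 0 (by simp)

lemma b_one : b 1 = k * w 0 * a 1 := by
  have h1 := PS_deriv D.gp D.gd 0 (by simp)
  have h2 := PS_deriv D.hp D.hd 0 (by simp)
  have key : ∀ c : ℕ → ℂ, HasSum (fun n : ℕ => ((n : ℂ) + 1) * c (n + 1) * (0 : ℂ) ^ n) (c 1) := by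
    intro c
    have := hasSum_single (f := fun n : ℕ => ((n : ℂ) + 1) * c (n + 1) * (0 : ℂ) ^ n) 0 (by
      intro n hn; simp [hn])
    simpa using this
  have e1 : deriv g 0 = b 1 := h1.unique (key b)
  have e2 : deriv h 0 = a 1 := h2.unique (key a)
  rw [← e1, ← e2]
  exact D.eq 0 (by simp)

lemma norm_b_one : ‖b 1‖ = k * ‖w 0‖ * ‖a 1‖ := by
  rw [D.b_one, norm_mul, norm_mul, Complex.norm_real, Real.norm_eq_abs, abs_of_pos D.k0]

/-- the correction sequence -/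
noncomputable def qs (k : ℝ) (w : ℂ → ℂ) (a : ℕ → ℂ) (n : ℕ) : ℝ :=
  k ^ 2 * (1 - ‖w 0‖ ^ 2) * ‖a 1‖ ^ 2 * (if n = 0 then 11 / 16 else if n = 1 then -(27 / 16) else 0)

theorem tail_g {s : ℝ} (h0 : 0 ≤ s) (h1 : s < 1) {S : ℝ}
    (hS : HasSum (fun n => ‖a (n + 2)‖ ^ 2 * s ^ (n + 1)) S) :
    ∃ Sg : ℝ, HasSum (fun n => ‖b (n + 2)‖ ^ 2 * s ^ (n + 1)) Sg ∧
      Sg ≤ k ^ 2 * ((1 - ‖w 0‖ ^ 2) * ‖a 1‖ ^ 2 * (5 / 16 + 27 / 64 * s) + S) := by
  have hk := D.k0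
  have hβ1 := D.w0_le
  have hβ0 := norm_nonneg (w 0)
  have hβ2 : 0 ≤ 1 - ‖w 0‖ ^ 2 := by nlinarith
  set c : ℕ → ℂ := fun n : ℕ => ((n : ℂ) + 1) * a (n + 1) with hc
  set c' : ℕ → ℂ := fun n : ℕ => ((n : ℂ) + 1) * b (n + 1) with hc'
  have hdh : DifferentiableOn ℂ (deriv h) (ball 0 1) := D.hd.deriv isOpen_ball
  have hdg : DifferentiableOn ℂ (deriv g) (ball 0 1) := D.gd.deriv isOpen_ball
  have hnc : ∀ n : ℕ, ‖c n‖ = ((n : ℝ) + 1) * ‖a (n + 1)‖ := by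
    intro n
    simp only [hc]
    rw [norm_mul]
    congr 1
    have : ((n : ℂ) + 1) = (((n : ℝ) + 1 : ℝ) : ℂ) := by push_cast; rfl
    rw [this, Complex.norm_real, Real.norm_eq_abs, abs_of_pos (by positivity)]
  have hnc' : ∀ n : ℕ, ‖c' n‖ = ((n : ℝ) + 1) * ‖b (n + 1)‖ := by
    intro n
    simp only [hc']
    rw [norm_mul]
    congr 1
    have : ((n : ℂ) + 1) = (((n : ℝ) + 1 : ℝ) : ℂ) := by push_cast; rfl
    rw [this, Complex.norm_real, Real.norm_eq_abs, abs_of_pos (by positivity)]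
  have hpc : ∀ t, 0 ≤ t → t < 1 → HasSum (fun n => ‖c n‖ ^ 2 * t ^ n) (J (deriv h) t) :=
    fun t ht0 ht1 => pars (PS_deriv D.hp D.hd) hdh ht0 ht1
  have hpc' : ∀ t, 0 ≤ t → t < 1 → HasSum (fun n => ‖c' n‖ ^ 2 * t ^ n) (J (deriv g) t) :=
    fun t ht0 ht1 => pars (PS_deriv D.gp D.gd) hdg ht0 ht1
  have hq : ∀ (u v t : ℝ), HasSum (fun n : ℕ => (if n = 0 then u else if n = 1 then v else 0) * t ^ n)
      (u + v * t) := by
    intro u v t
    have : HasSum (fun n : ℕ => (if n = 0 then u else if n = 1 then v else 0) * t ^ n)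
        (∑ n ∈ Finset.range 2, (if n = 0 then u else if n = 1 then v else 0) * t ^ n) :=
      hasSum_sum_of_ne_finset_zero (by
        intro n hn
        simp only [Finset.mem_range, not_lt] at hn
        rw [if_neg (by omega), if_neg (by omega), zero_mul])
    simpa [Finset.sum_range_succ] using this
  set e : ℕ → ℝ := fun n => k ^ 2 * ‖c n‖ ^ 2 - ‖c' n‖ ^ 2 - qs k w a n with he
  have hesum : ∀ t, 0 ≤ t → t < 1 → HasSum (fun n => e n * t ^ n)
      (k ^ 2 * J (deriv h) t - J (deriv g) t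
        - k ^ 2 * (1 - ‖w 0‖ ^ 2) * ‖a 1‖ ^ 2 * (11 / 16 + -(27 / 16) * t)) := by
    intro t ht0 ht1
    have := (((hpc t ht0 ht1).mul_left (k ^ 2)).sub (hpc' t ht0 ht1)).sub
      ((hq (11 / 16) (-(27 / 16)) t).mul_left (k ^ 2 * (1 - ‖w 0‖ ^ 2) * ‖a 1‖ ^ 2))
    refine this.congr_fun (fun n => ?_)
    simp only [he, qs]
    ring
  have habs : ∀ t, 0 ≤ t → t < 1 → Summable (fun n => |e n| * t ^ n) := by
    intro t ht0 ht1
    refine (hesum t ht0 ht1).summable.abs.congr (fun n => ?_)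
    rw [abs_mul, abs_of_nonneg (pow_nonneg ht0 n)]
  have hpos : ∀ t, 0 ≤ t → t < 1 → 0 ≤ ∑' n, e n * t ^ n := by
    intro t ht0 ht1
    rw [(hesum t ht0 ht1).tsum_eq]
    have j1 : J (deriv g) t ≤ (k ^ 2 * 1) * J (deriv h) t := by
      apply pars_le hdg hdh ht0 ht1
      intro z hz _
      have hzb : z ∈ ball (0 : ℂ) 1 := by simpa using hz
      rw [D.eq z hz, norm_mul, norm_mul, Complex.norm_real, Real.norm_eq_abs, abs_of_pos hk,
        mul_pow, mul_pow]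
      have := D.wb z hzb
      have h3 : ‖w z‖ ^ 2 ≤ 1 := by nlinarith [norm_nonneg (w z)]
      gcongr
    have j2 : J (deriv g) t ≤ (k ^ 2 * (1 - (1 - ‖w 0‖ ^ 2) * (11 / 16 - 27 / 16 * t)))
        * J (deriv h) t := by
      apply pars_le hdg hdh ht0 ht1
      intro z hz hzt
      rw [D.eq z hz, norm_mul, norm_mul, Complex.norm_real, Real.norm_eq_abs, abs_of_pos hk,
        mul_pow, mul_pow]
      have := kappa w D.wd D.wb hz
      rw [hzt] at this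
      gcongr
    have j3 : ‖a 1‖ ^ 2 ≤ J (deriv h) t := by
      have := sum_le_hasSum (Finset.range 1) (fun n _ => by positivity) (hpc t ht0 ht1)
      rw [Finset.sum_range_one, pow_zero, mul_one, hnc] at this
      simpa using this
    have hk2 : 0 < k ^ 2 := by positivity
    rcases le_or_gt 0 (11 / 16 - 27 / 16 * t) with hp | hp
    · have : (1 - ‖w 0‖ ^ 2) * (11 / 16 - 27 / 16 * t) * ‖a 1‖ ^ 2
          ≤ (1 - ‖w 0‖ ^ 2) * (11 / 16 - 27 / 16 * t) * J (deriv h) t :=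
        mul_le_mul_of_nonneg_left j3 (mul_nonneg hβ2 hp)
      nlinarith
    · have : (1 - ‖w 0‖ ^ 2) * (11 / 16 - 27 / 16 * t) * ‖a 1‖ ^ 2 ≤ 0 := by
        apply mul_nonpos_of_nonpos_of_nonneg _ (by positivity)
        exact mul_nonpos_of_nonneg_of_nonpos hβ2 hp.le
      nlinarith
  have i1 := int_nonneg e habs hpos
  have habs2 : ∀ t, 0 ≤ t → t < 1 → Summable (fun n : ℕ => |e n / ((n : ℝ) + 1)| * t ^ n) := by
    intro t ht0 ht1
    refine Summable.of_nonneg_of_le (fun n => by positivity) (fun n => ?_) (habs t ht0 ht1)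
    apply mul_le_mul_of_nonneg_right _ (pow_nonneg ht0 n)
    rw [abs_div, abs_of_pos (show (0 : ℝ) < (n : ℝ) + 1 by positivity)]
    apply div_le_self (abs_nonneg _)
    have : (0 : ℝ) ≤ n := Nat.cast_nonneg n
    linarith
  have i2 := int_nonneg (fun n : ℕ => e n / ((n : ℝ) + 1)) habs2 i1 s h0 h1
  -- the sums
  have hA : HasSum (fun n => ‖a (n + 1)‖ ^ 2 * s ^ n) (‖a 1‖ ^ 2 + S) := by
    rw [← hasSum_nat_add_iff' 1]
    simpa using hS
  have hBs : Summable (fun n => ‖b (n + 1)‖ ^ 2 * s ^ n) := by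
    refine Summable.of_nonneg_of_le (fun n => by positivity) (fun n => ?_) (hpc' s h0 h1).summable
    apply mul_le_mul_of_nonneg_right _ (pow_nonneg h0 n)
    rw [hnc', mul_pow]
    have : (1 : ℝ) ≤ ((n : ℝ) + 1) ^ 2 := by
      have : (0 : ℝ) ≤ n := Nat.cast_nonneg n
      nlinarith
    nlinarith [sq_nonneg ‖b (n + 1)‖]
  have hB := hBs.hasSum
  have hfin : HasSum (fun n : ℕ => e n / ((n : ℝ) + 1) / ((n : ℝ) + 1) * s ^ n)
      (k ^ 2 * (‖a 1‖ ^ 2 + S) - (∑' n, ‖b (n + 1)‖ ^ 2 * s ^ n)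
        - k ^ 2 * (1 - ‖w 0‖ ^ 2) * ‖a 1‖ ^ 2 * (11 / 16 + -(27 / 64) * s)) := by
    have := ((hA.mul_left (k ^ 2)).sub hB).sub
      ((hq (11 / 16) (-(27 / 64)) s).mul_left (k ^ 2 * (1 - ‖w 0‖ ^ 2) * ‖a 1‖ ^ 2))
    refine this.congr_fun (fun n => ?_)
    simp only [he, qs, hnc, hnc']
    have hn1 : (n : ℝ) + 1 ≠ 0 := by positivity
    by_cases hn0 : n = 0
    · subst hn0
      simp
    · by_cases hn1' : n = 1
      · subst hn1'
        norm_num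
        ring
      · simp only [if_neg hn0, if_neg hn1']
        field_simp
        ring
  rw [hfin.tsum_eq] at i2
  have hb1 : ‖b 1‖ ^ 2 = k ^ 2 * ‖w 0‖ ^ 2 * ‖a 1‖ ^ 2 := by
    rw [D.norm_b_one]; ring
  refine ⟨(∑' n, ‖b (n + 1)‖ ^ 2 * s ^ n) - ‖b 1‖ ^ 2, ?_, ?_⟩
  · have := (hasSum_nat_add_iff' 1).2 hB
    simpa using this
  · rw [hb1]
    nlinarith

end Dat

end Pool.Agent.T2H70.BH
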