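import Mathlib

set_option autoImplicit false

open Finset

namespace Pool.Agent.T2H70.BH

/-- a Cauchy Schwarz estimate of a tail -/
lemma cs_tail (c : ℕ → ℝ) {r s S : ℝ} (hr : 0 < r) (hrs : r ^ 2 < s)
    (hS : HasSum (fun n => c n ^ 2 * s ^ (n + 1)) S) (N : ℕ) :
    (∑ n ∈ range N, c n * r ^ (n + 2)) ^ 2 * (s - r ^ 2) ≤ S * (r ^ 2) ^ 2 := by
  have hs : 0 < s := lt_trans (by positivity) hrs
  have hsr : 0 < s - r ^ 2 := by linarith
  set q : ℝ := r ^ 2 / s with hq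
  have hq0 : 0 < q := by positivity
  have hq1 : q < 1 := (div_lt_one hs).2 hrs
  have h1 : (∑ n ∈ range N, c n * r ^ (n + 2)) ^ 2
      ≤ (∑ n ∈ range N, c n ^ 2 * s ^ (n + 1)) * (∑ n ∈ range N, r ^ 2 * q ^ (n + 1)) := by
    have h2 := Finset.sum_mul_sq_le_sq_mul_sq (range N) (fun n => c n * Real.sqrt (s ^ (n + 1)))
      (fun n => r * Real.sqrt (q ^ (n + 1)))
    have e1 : ∀ n : ℕ, c n * Real.sqrt (s ^ (n + 1)) * (r * Real.sqrt (q ^ (n + 1)))
        = c n * r ^ (n + 2) := by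
      intro n
      have : Real.sqrt (s ^ (n + 1)) * Real.sqrt (q ^ (n + 1)) = r ^ (n + 1) := by
        rw [← Real.sqrt_mul (by positivity), ← mul_pow, hq, mul_div_cancel₀ _ hs.ne', ← pow_mul,
          mul_comm 2, pow_mul, Real.sqrt_sq (by positivity)]
      calc _ = c n * r * (Real.sqrt (s ^ (n + 1)) * Real.sqrt (q ^ (n + 1))) := by ring
        _ = c n * r * r ^ (n + 1) := by rw [this]
        _ = _ := by ring
    have e2 : ∀ n : ℕ, (c n * Real.sqrt (s ^ (n + 1))) ^ 2 = c n ^ 2 * s ^ (n + 1) := by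
      intro n; rw [mul_pow, Real.sq_sqrt (by positivity)]
    have e3 : ∀ n : ℕ, (r * Real.sqrt (q ^ (n + 1))) ^ 2 = r ^ 2 * q ^ (n + 1) := by
      intro n; rw [mul_pow, Real.sq_sqrt (by positivity)]
    simp only [e1, e2, e3] at h2
    exact h2
  have h3 : ∑ n ∈ range N, c n ^ 2 * s ^ (n + 1) ≤ S :=
    sum_le_hasSum _ (fun n _ => by positivity) hS
  have h4 : (∑ n ∈ range N, r ^ 2 * q ^ (n + 1)) * (s - r ^ 2) ≤ (r ^ 2) ^ 2 := by
    have h5 : ∑ n ∈ range N, r ^ 2 * q ^ (n + 1) = r ^ 2 * q * ∑ n ∈ range N, q ^ n := by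
      rw [Finset.mul_sum]
      apply Finset.sum_congr rfl
      intro n _; ring
    have h6 : (∑ n ∈ range N, q ^ n) * (1 - q) ≤ 1 := by
      have := geom_sum_mul_neg q N
      rw [this]
      have : 0 < q ^ N := by positivity
      linarith
    have h7 : s - r ^ 2 = s * (1 - q) := by rw [hq]; field_simp
    rw [h5, h7]
    calc r ^ 2 * q * (∑ n ∈ range N, q ^ n) * (s * (1 - q))
        = r ^ 2 * (q * s) * ((∑ n ∈ range N, q ^ n) * (1 - q)) := by ring
      _ ≤ r ^ 2 * (q * s) * 1 := by gcongr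
      _ = (r ^ 2) ^ 2 := by rw [hq]; field_simp
  have hS0 : 0 ≤ S := hS.nonneg (fun n => by positivity)
  have h8 : 0 ≤ ∑ n ∈ range N, r ^ 2 * q ^ (n + 1) := Finset.sum_nonneg (fun n _ => by positivity)
  calc (∑ n ∈ range N, c n * r ^ (n + 2)) ^ 2 * (s - r ^ 2)
      ≤ ((∑ n ∈ range N, c n ^ 2 * s ^ (n + 1)) * (∑ n ∈ range N, r ^ 2 * q ^ (n + 1)))
        * (s - r ^ 2) := by gcongr
    _ ≤ (S * (∑ n ∈ range N, r ^ 2 * q ^ (n + 1))) * (s - r ^ 2) := by gcongr
    _ = S * ((∑ n ∈ range N, r ^ 2 * q ^ (n + 1)) * (s - r ^ 2)) := by ring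
    _ ≤ S * (r ^ 2) ^ 2 := by gcongr

/-- from all `s < 1` to `s = 1` -/
lemma lim_one {A C D R : ℝ} (hR : R < 1)
    (h : ∀ s, R < s → s < 1 → A * (s - R) ≤ C + D * s) : A * (1 - R) ≤ C + D := by
  have ht : Filter.Tendsto (fun s : ℝ => A * (s - R) - (C + D * s))
      (nhdsWithin 1 (Set.Iio 1)) (nhds (A * (1 - R) - (C + D * 1))) := by
    have hc : Continuous (fun s : ℝ => A * (s - R) - (C + D * s)) := by fun_prop
    exact (hc.tendsto 1).mono_left nhdsWithin_le_nhds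
  have h9 := le_of_tendsto ht (b := 0) (by
    have h5 : Set.Ioo R 1 ∈ nhdsWithin (1 : ℝ) (Set.Iio 1) := Ioo_mem_nhdsLT hR
    filter_upwards [h5] with s hs
    have := h s hs.1 hs.2
    linarith)
  linarith

/-- data for the radius -/
structure Rad (k r v : ℝ) : Prop where
  k0 : 0 < k
  k1 : k < 1
  r0 : 0 < r
  v1 : 1 / 2 < v
  v2 : v < 5 / 8
  hr : r ^ 2 = 1 - 2 * v ^ 2
  hk : (1 + k) * (3 - 4 * v) = 1

namespace Rad

variable {k r v : ℝ} (Q : Rad k r v)

include Q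

lemma r_lt : r < 3 / 4 := by
  have := Q.hr; have := Q.v1; have := Q.r0
  nlinarith

lemma r_sq_lt : r ^ 2 < 1 / 2 := by
  have := Q.hr; have := Q.v1; have := Q.r0
  nlinarith

lemma two_R_le : 2 * r ^ 2 ≤ 3 - 4 * v := by
  rw [Q.hr]; nlinarith [sq_nonneg (2 * v - 1)]

/-- the bound for small `a` -/
lemma small {a H : ℝ} (ha0 : 0 ≤ a) (har : a ≤ r)
    (hH : H ^ 2 * (1 - r ^ 2) ≤ (1 - a ^ 2) * (r ^ 2) ^ 2) : a * r + H ≤ 2 * r ^ 2 := by
  have hr := Q.r0
  have hR := Q.r_sq_lt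
  set q := Real.sqrt (1 - r ^ 2) with hq
  set p := Real.sqrt (1 - a ^ 2) with hp
  have hq2 : q ^ 2 = 1 - r ^ 2 := Real.sq_sqrt (by linarith)
  have hp2 : p ^ 2 = 1 - a ^ 2 := Real.sq_sqrt (by nlinarith)
  have hq0 : 0 < q := Real.sqrt_pos.2 (by linarith)
  have hp0 : 0 ≤ p := Real.sqrt_nonneg _
  have hpq : q ≤ p := Real.sqrt_le_sqrt (by nlinarith)
  have hqr : r ≤ q := by
    apply Real.le_sqrt_of_sq_le; linarith
  have h1 : H * q ≤ p * r ^ 2 := by
    apply le_of_sq_le_sq _ (by positivity)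
    rw [mul_pow, mul_pow, hq2, hp2]; exact hH
  -- a q + p r <= 2 r q
  have h2 : a * q + p * r ≤ 2 * r * q := by
    have h3 : (p - q) * (p + q) = (r - a) * (r + a) := by nlinarith
    have h4 : 0 ≤ r - a := by linarith
    have h5 : r * (r + a) ≤ q * (p + q) := by
      have : r * (r + a) ≤ r * (p + q) := by
        apply mul_le_mul_of_nonneg_left _ hr.le
        linarith
      have h6 : r * (p + q) ≤ q * (p + q) := by
        apply mul_le_mul_of_nonneg_right hqr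
        linarith
      linarith
    have h6 : 0 < p + q := by linarith
    have h7 : (r * (p - q)) * (p + q) ≤ (q * (r - a)) * (p + q) := by
      calc (r * (p - q)) * (p + q) = r * ((p - q) * (p + q)) := by ring
        _ = (r * (r + a)) * (r - a) := by rw [h3]; ring
        _ ≤ (q * (p + q)) * (r - a) := by gcongr
        _ = _ := by ring
    have h8 := le_of_mul_le_mul_right h7 h6
    linarith
  have h3 : (a * r + H) * q ≤ (2 * r ^ 2) * q := by
    calc (a * r + H) * q = a * r * q + H * q := by ring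
      _ ≤ a * r * q + p * r ^ 2 := by linarith
      _ = r * (a * q + p * r) := by ring
      _ ≤ r * (2 * r * q) := by gcongr
      _ = _ := by ring
  exact le_of_mul_le_mul_right h3 hq0

/-- key identity -/
lemma ident (x : ℝ) : x * (1 - x) + (r ^ 2 - x ^ 2) = (3 - 4 * v) * (1 - x) - 2 * (x - 1 + v) ^ 2 := by
  rw [Q.hr]; ring

/-- the bound for `h` in the case `a > r` -/
lemma large_h {x H : ℝ} (hx : x < 1) (hH : H * (1 - x) ≤ r ^ 2 - x ^ 2) :
    x + H ≤ 3 - 4 * v := by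
  have h1 := Q.ident x
  have h2 : (x + H) * (1 - x) ≤ (3 - 4 * v) * (1 - x) := by
    nlinarith [sq_nonneg (x - 1 + v)]
  exact le_of_mul_le_mul_right h2 (by linarith)

omit Q in
/-- a concave maximisation -/
lemma max_le {β y Y T : ℝ} (hβ0 : 0 ≤ β) (hβ1 : β ≤ 1) (hy : 0 ≤ y)
    (hT : 0 ≤ T) (hYT : Y ≤ y * T) {G : ℝ}
    (hG : G ^ 2 ≤ (1 - β ^ 2) * Y + T ^ 2) : β * y + G ≤ y + T := by
  have h1 : G ^ 2 ≤ (T + (1 - β) * y) ^ 2 := by
    have : (1 - β ^ 2) * Y ≤ (1 - β) * (2 * (y * T)) := by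
      have h2 : (1 + β) * Y ≤ 2 * (y * T) := by
        have : (1 + β) * Y ≤ (1 + β) * (y * T) := by gcongr
        have h3 : 0 ≤ y * T := by positivity
        nlinarith
      calc (1 - β ^ 2) * Y = (1 - β) * ((1 + β) * Y) := by ring
        _ ≤ (1 - β) * (2 * (y * T)) := by
          apply mul_le_mul_of_nonneg_left h2; linarith
    nlinarith [sq_nonneg ((1 - β) * y)]
  have h2 : G ≤ T + (1 - β) * y := by
    apply le_of_sq_le_sq h1
    have : 0 ≤ (1 - β) * y := mul_nonneg (by linarith) hy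
    linarith
  linarith

end Rad

end Pool.Agent.T2H70.BH
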