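import Pool.Agent.T2H70.BH.Real

set_option autoImplicit false

open Finset

namespace Pool.Agent.T2H70.BH

namespace Rad

variable {k r v : ℝ} (Q : Rad k r v)

include Q

lemma v_up : v * (241592 / 100000) + 104 / 100 * r ≤ 2 := by
  have h1 := Q.hr
  nlinarith [sq_nonneg (v - 60398 / 100000), sq_nonneg (r - 52 / 100)]

lemma v_low (hr : 13 / 25 ≤ r) : 6039 / 10000 - 5553 / 10000 * (r - 52 / 100) ≤ v := by
  have h1 := Q.hr
  have h2 := Q.v1
  have h3 := Q.r_sq_lt
  by_contra hcon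
  push Not at hcon
  have h4 : v ^ 2 < (6039 / 10000 - 5553 / 10000 * (r - 52 / 100)) ^ 2 := by
    apply pow_lt_pow_left₀ hcon (by linarith) (by norm_num)
  have h5 : r ≤ 7072 / 10000 := by
    have := Q.r0
    nlinarith
  nlinarith

/-- the first slope estimate -/
lemma slope (hr : 13 / 25 ≤ r) : r * (20 + 27 * r) ≤ (147 + 27 * r) * (r + v - 1) := by
  have h1 := Q.v_low hr
  have h5 : r ≤ 7072 / 10000 := by
    have := Q.r0
    have h3 := Q.r_sq_lt
    nlinarith
  have h6 : (147 + 27 * r) * (r + (6039 / 10000 - 5553 / 10000 * (r - 52 / 100)) - 1)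
      ≤ (147 + 27 * r) * (r + v - 1) := by
    apply mul_le_mul_of_nonneg_left _ (by linarith)
    linarith
  refine le_trans ?_ h6
  nlinarith

lemma delta_pos (hr : 13 / 25 ≤ r) : 0 < r + v - 1 := by
  have h1 := Q.v_low hr
  have h5 : r ≤ 7072 / 10000 := by
    have := Q.r0
    have h3 := Q.r_sq_lt
    nlinarith
  linarith

/-- the main numerical inequality -/
lemma arc (hr : 13 / 25 ≤ r) :
    (4 * v - 2) * (r ^ 3 * (20 + 27 * r) ^ 2)
      ≤ 256 * (3 - 4 * v) * (174 / 10 + 24 * r) * (r + v - 1) ^ 2 := by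
  have h1 := Q.v_low hr
  have h2 := Q.v_up
  have h5 : r ≤ 7072 / 10000 := by
    have := Q.r0
    have h3 := Q.r_sq_lt
    nlinarith
  have hV : v ≤ (2 - 104 / 100 * r) / (241592 / 100000) := by
    rw [le_div_iff₀ (by norm_num)]; linarith
  set V : ℝ := (2 - 104 / 100 * r) / (241592 / 100000) with hVdef
  set L : ℝ := 6039 / 10000 - 5553 / 10000 * (r - 52 / 100) with hLdef
  have hr0 := Q.r0
  have h6 : (4 * v - 2) * (r ^ 3 * (20 + 27 * r) ^ 2) ≤ (4 * V - 2) * (r ^ 3 * (20 + 27 * r) ^ 2) := by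
    apply mul_le_mul_of_nonneg_right (by linarith) (by positivity)
  have hVs : 0 ≤ 3 - 4 * V := by
    rw [hVdef]
    have : (2 - 104 / 100 * r) / (241592 / 100000) ≤ 3 / 4 := by
      rw [div_le_iff₀ (by norm_num)]; linarith
    linarith
  have hLd : 0 ≤ r + L - 1 := by rw [hLdef]; linarith
  have h7 : 256 * (3 - 4 * V) * (174 / 10 + 24 * r) * (r + L - 1) ^ 2
      ≤ 256 * (3 - 4 * v) * (174 / 10 + 24 * r) * (r + v - 1) ^ 2 := by
    have e1 : (r + L - 1) ^ 2 ≤ (r + v - 1) ^ 2 := pow_le_pow_left₀ hLd (by linarith) 2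
    have e2 : 3 - 4 * V ≤ 3 - 4 * v := by linarith
    have e3 : 256 * (3 - 4 * V) * (174 / 10 + 24 * r) ≤ 256 * (3 - 4 * v) * (174 / 10 + 24 * r) := by
      gcongr
    exact mul_le_mul e3 e1 (sq_nonneg _) (le_trans (by positivity) e3)
  refine h6.trans (le_trans ?_ h7)
  obtain ⟨u, hu⟩ : ∃ u, r = 52 / 100 + u := ⟨r - 52 / 100, by ring⟩
  have hu0 : 0 ≤ u := by linarith
  have key : 256 * (3 - 4 * V) * (174 / 10 + 24 * r) * (r + L - 1) ^ 2
      - (4 * V - 2) * (r ^ 3 * (20 + 27 * r) ^ 2)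
      = (47591148601 / 58982421875 : ℝ)
        + (156776650125724 / 294912109375 : ℝ) * u
        + (1044421338356451 / 294912109375 : ℝ) * u ^ 2
        + (4316471729884 / 512890625 : ℝ) * u ^ 3
        + (831001230806 / 94371875 : ℝ) * u ^ 4
        + (145563102 / 30199 : ℝ) * u ^ 5
        + (2916000 / 2323 : ℝ) * u ^ 6 := by
    rw [hVdef, hLdef, hu]; ring
  have pos : 0 ≤ (47591148601 / 58982421875 : ℝ)
        + (156776650125724 / 294912109375 : ℝ) * u
        + (1044421338356451 / 294912109375 : ℝ) * u ^ 2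
        + (4316471729884 / 512890625 : ℝ) * u ^ 3
        + (831001230806 / 94371875 : ℝ) * u ^ 4
        + (145563102 / 30199 : ℝ) * u ^ 5
        + (2916000 / 2323 : ℝ) * u ^ 6 := by
    positivity
  rw [← key] at pos
  linarith

/-- the key quadratic inequality in the second regime -/
lemma quad (hr : 13 / 25 ≤ r) {a : ℝ} (ha1 : a ≤ 1) (har : r < a)
    (hz : 0 < 84 * a ^ 2 + 27 * r * a - 64) :
    k * (r ^ 2 * (84 * a ^ 2 + 27 * r * a - 64) / 64) ^ 2
      ≤ 4 * (r * (20 * a + 27 * r) / 64) * (a * r - 1 + v) ^ 2 := by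
  have hr0 := Q.r0
  have hk := Q.k0
  have h5 : r ≤ 7072 / 10000 := by
    have h3 := Q.r_sq_lt
    nlinarith
  have ha0 : 0 < a := by linarith
  have ha34 : 3 / 4 ≤ a := by
    by_contra hcon
    push Not at hcon
    nlinarith
  have halow : 87 / 100 - 15 / 100 * r ≤ a := by
    by_contra hcon
    push Not at hcon
    have e1 : a ^ 2 < (87 / 100 - 15 / 100 * r) ^ 2 := by
      apply pow_lt_pow_left₀ hcon ha0.le (by norm_num)
    have e2 : r * a < r * (87 / 100 - 15 / 100 * r) := mul_lt_mul_of_pos_left hcon hr0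
    nlinarith
  set Z : ℝ := 84 * a ^ 2 + 27 * r * a - 64 with hZ
  set d : ℝ := a * r - 1 + v with hd
  set dr : ℝ := r + v - 1 with hdr
  have hdr0 : 0 < dr := Q.delta_pos hr
  have h1 : Z * dr ≤ (20 + 27 * r) * d := by
    have hs := Q.slope hr
    have hb : 0 ≤ 1 - a := by linarith
    have e1 : (20 + 27 * r) * d - Z * dr
        = (1 - a) * ((84 + 84 * a + 27 * r) * dr - (20 + 27 * r) * r) := by
      rw [hZ, hd, hdr]; ring
    have e2 : 0 ≤ (84 + 84 * a + 27 * r) * dr - (20 + 27 * r) * r := by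
      have : (147 + 27 * r) * dr ≤ (84 + 84 * a + 27 * r) * dr := by
        apply mul_le_mul_of_nonneg_right _ hdr0.le
        linarith
      linarith
    have e3 := mul_nonneg hb e2
    linarith
  have h2 : (Z * dr) ^ 2 ≤ ((20 + 27 * r) * d) ^ 2 := pow_le_pow_left₀ (by positivity) h1 2
  -- k
  have hm : 0 < 3 - 4 * v := by have := Q.v2; linarith
  have hkm : k * (3 - 4 * v) = 4 * v - 2 := by have := Q.hk; linarith
  have h3 : k * (r ^ 3 * (20 + 27 * r) ^ 2) ≤ 256 * (20 * a + 27 * r) * dr ^ 2 := by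
    have e1 := Q.arc hr
    have e2 : (k * (r ^ 3 * (20 + 27 * r) ^ 2)) * (3 - 4 * v)
        ≤ (256 * (174 / 10 + 24 * r) * dr ^ 2) * (3 - 4 * v) := by
      calc (k * (r ^ 3 * (20 + 27 * r) ^ 2)) * (3 - 4 * v)
          = (k * (3 - 4 * v)) * (r ^ 3 * (20 + 27 * r) ^ 2) := by ring
        _ = (4 * v - 2) * (r ^ 3 * (20 + 27 * r) ^ 2) := by rw [hkm]
        _ ≤ _ := e1
        _ = _ := by rw [hdr]; ring
    have e3 := le_of_mul_le_mul_right e2 hm
    refine e3.trans ?_
    apply mul_le_mul_of_nonneg_right _ (sq_nonneg _)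
    linarith
  -- combine
  have h4 : (k * (r ^ 2 * Z / 64) ^ 2) * dr ^ 2
      ≤ (4 * (r * (20 * a + 27 * r) / 64) * d ^ 2) * dr ^ 2 := by
    calc (k * (r ^ 2 * Z / 64) ^ 2) * dr ^ 2
        = (k * r ^ 4 / 4096) * (Z * dr) ^ 2 := by ring
      _ ≤ (k * r ^ 4 / 4096) * ((20 + 27 * r) * d) ^ 2 := by gcongr
      _ = (k * (r ^ 3 * (20 + 27 * r) ^ 2)) * (r / 4096 * d ^ 2) := by ring
      _ ≤ (256 * (20 * a + 27 * r) * dr ^ 2) * (r / 4096 * d ^ 2) := by gcongr
      _ = _ := by ring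
  exact le_of_mul_le_mul_right h4 (by positivity)

/-- the final estimate in the second regime -/
lemma final_B (hr : 13 / 25 ≤ r) {a β H G : ℝ} (ha1 : a ≤ 1) (har : r < a)
    (hβ0 : 0 ≤ β) (hβ1 : β ≤ 1)
    (hH : H * (1 - a * r) ≤ r ^ 2 - (a * r) ^ 2)
    (hG : (G * (1 - a * r)) ^ 2 ≤ k ^ 2 * ((1 - β ^ 2) *
      ((a * r) ^ 2 * (r * (20 * a + 27 * r) / 64) * (1 - a * r)) + (r ^ 2 - (a * r) ^ 2) ^ 2)) :
    (a * r + H) + (k * (β * (a * r)) + G) ≤ 1 := by
  have hr0 := Q.r0
  have hk0 := Q.k0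
  have hrl := Q.r_lt
  have hk2 : 0 ≤ 1 - k ^ 2 := by have := Q.k1; nlinarith
  have ha0 : 0 < a := by linarith
  set x : ℝ := a * r with hx
  have hx0 : 0 < x := by positivity
  have hxr : x ≤ r := by nlinarith
  have hx1 : x < 1 := by linarith
  set y : ℝ := 1 - x with hy
  have hy0 : 0 < y := by linarith
  set P : ℝ := r * (20 * a + 27 * r) / 64 with hP
  have hP0 : 0 < P := by positivity
  set T : ℝ := r ^ 2 - x ^ 2 with hT
  have hT0 : 0 ≤ T := by rw [hT]; nlinarith
  set m : ℝ := 3 - 4 * v with hm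
  have hm0 : 0 < m := by have := Q.v2; rw [hm]; linarith
  set d : ℝ := x - 1 + v with hd
  have hid : x * y + T = m * y - 2 * d ^ 2 := Q.ident x
  have hkm : (1 + k) * m = 1 := Q.hk
  -- it suffices to bound `G * y / k`
  set G' : ℝ := G * y / k with hG'
  have hGk : G * y = k * G' := by rw [hG']; field_simp
  have hG2 : G' ^ 2 ≤ (1 - β ^ 2) * (x ^ 2 * P * y) + T ^ 2 := by
    have : k ^ 2 * G' ^ 2 ≤ k ^ 2 * ((1 - β ^ 2) * (x ^ 2 * P * y) + T ^ 2) := by
      calc k ^ 2 * G' ^ 2 = (k * G') ^ 2 := by ring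
        _ = (G * y) ^ 2 := by rw [hGk]
        _ ≤ _ := hG
    exact le_of_mul_le_mul_left this (by positivity)
  have goal2 : (x * y + T) + k * (β * (x * y) + G') ≤ y := by
    by_cases hz : x * P ≤ T
    · have h1 : β * (x * y) + G' ≤ x * y + T := by
        apply max_le hβ0 hβ1 (by positivity) hT0 (Y := x ^ 2 * P * y) _ hG2
        calc x ^ 2 * P * y = (x * y) * (x * P) := by ring
          _ ≤ (x * y) * T := by gcongr
      have h2 : x * y + T ≤ m * y := by rw [hid]; linarith [sq_nonneg d]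
      calc (x * y + T) + k * (β * (x * y) + G') ≤ m * y + k * (m * y) := by
            gcongr
            exact h1.trans h2
        _ = ((1 + k) * m) * y := by ring
        _ = y := by rw [hkm, one_mul]
    · push Not at hz
      set z : ℝ := x * P - T with hzdef
      have hz0 : 0 < z := by linarith
      have hzform : z = r ^ 2 * (84 * a ^ 2 + 27 * r * a - 64) / 64 := by
        rw [hzdef, hP, hT, hx]; ring
      have hZpos : 0 < 84 * a ^ 2 + 27 * r * a - 64 := by
        by_contra hcon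
        push Not at hcon
        have : r ^ 2 * (84 * a ^ 2 + 27 * r * a - 64) ≤ 0 :=
          mul_nonpos_of_nonneg_of_nonpos (by positivity) hcon
        rw [hzform] at hz0
        linarith
      have hq := Q.quad hr ha1 har hZpos
      rw [← hzform] at hq
      have hq' : k * z ^ 2 ≤ 4 * P * d ^ 2 := hq
      -- Cauchy Schwarz
      have hcs : (β * (x * y) + G') ^ 2 * P ≤ (x * y + T) ^ 2 * P + z ^ 2 * y := by
        have e1 : (β * (x * y) + G') ^ 2 * P ≤ (β ^ 2 * (x ^ 2 * P * y) + G' ^ 2) * (y + P) := by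
          have : (β ^ 2 * (x ^ 2 * P * y) + G' ^ 2) * (y + P) - (β * (x * y) + G') ^ 2 * P
              = y * (β * x * P - G') ^ 2 := by ring
          have h2 : 0 ≤ y * (β * x * P - G') ^ 2 := by positivity
          linarith
        have e2 : (β ^ 2 * (x ^ 2 * P * y) + G' ^ 2) * (y + P)
            ≤ (x ^ 2 * P * y + T ^ 2) * (y + P) := by
          apply mul_le_mul_of_nonneg_right _ (by positivity)
          linarith
        have e3 : (x ^ 2 * P * y + T ^ 2) * (y + P) = (x * y + T) ^ 2 * P + z ^ 2 * y := by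
          rw [hzdef]; ring
        linarith
      have hA : x * y + T = m * y - 2 * d ^ 2 := hid
      have hA0 : 0 ≤ x * y + T := by positivity
      have hfin : k * (β * (x * y) + G') ≤ k * m * y + 2 * d ^ 2 := by
        have h0 : 0 ≤ k * m * y + 2 * d ^ 2 := by positivity
        apply le_of_sq_le_sq _ h0
        have e4 : (k * (β * (x * y) + G')) ^ 2 * P ≤ (k * m * y + 2 * d ^ 2) ^ 2 * P := by
          have e5 : (k * (β * (x * y) + G')) ^ 2 * P
              ≤ k ^ 2 * ((m * y - 2 * d ^ 2) ^ 2 * P + z ^ 2 * y) := by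
            rw [← hA]
            calc (k * (β * (x * y) + G')) ^ 2 * P = k ^ 2 * ((β * (x * y) + G') ^ 2 * P) := by ring
              _ ≤ _ := by gcongr
          have e6 : k ^ 2 * (z ^ 2 * y) ≤ k * y * (4 * P * d ^ 2) := by
            calc k ^ 2 * (z ^ 2 * y) = (k * y) * (k * z ^ 2) := by ring
              _ ≤ (k * y) * (4 * P * d ^ 2) := by gcongr
              _ = _ := by ring
          have e7 : (k * m * y + 2 * d ^ 2) ^ 2 - k ^ 2 * (m * y - 2 * d ^ 2) ^ 2
              = 4 * k * y * d ^ 2 * ((1 + k) * m) + 4 * d ^ 4 * (1 - k ^ 2) := by ring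
          rw [hkm] at e7
          have e8 : 0 ≤ 4 * d ^ 4 * (1 - k ^ 2) := by
            exact mul_nonneg (by positivity) hk2
          have e9 : 0 ≤ (4 * d ^ 4 * (1 - k ^ 2)) * P := mul_nonneg e8 hP0.le
          have e10 : (k * m * y + 2 * d ^ 2) ^ 2 * P = k ^ 2 * (m * y - 2 * d ^ 2) ^ 2 * P
              + 4 * k * y * d ^ 2 * P + (4 * d ^ 4 * (1 - k ^ 2)) * P := by
            have : (k * m * y + 2 * d ^ 2) ^ 2 = k ^ 2 * (m * y - 2 * d ^ 2) ^ 2
              + 4 * k * y * d ^ 2 + (4 * d ^ 4 * (1 - k ^ 2)) := by linarith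
            rw [this]; ring
          rw [e10]
          have e11 : k ^ 2 * ((m * y - 2 * d ^ 2) ^ 2 * P + z ^ 2 * y)
              = k ^ 2 * (m * y - 2 * d ^ 2) ^ 2 * P + k ^ 2 * (z ^ 2 * y) := by ring
          have e12 : k * y * (4 * P * d ^ 2) = 4 * k * y * d ^ 2 * P := by ring
          rw [e11] at e5
          rw [e12] at e6
          linarith
        exact le_of_mul_le_mul_right e4 hP0
      calc (x * y + T) + k * (β * (x * y) + G')
          ≤ (m * y - 2 * d ^ 2) + (k * m * y + 2 * d ^ 2) := by rw [← hA]; linarith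
        _ = ((1 + k) * m) * y := by ring
        _ = y := by rw [hkm, one_mul]
  have goal3 : ((x + H) + (k * (β * x) + G)) * y ≤ 1 * y := by
    calc ((x + H) + (k * (β * x) + G)) * y
        = (x * y + H * y) + (k * (β * (x * y)) + G * y) := by ring
      _ ≤ (x * y + T) + (k * (β * (x * y)) + k * G') := by rw [hGk]; linarith
      _ = (x * y + T) + k * (β * (x * y) + G') := by ring
      _ ≤ y := goal2
      _ = 1 * y := by ring
  exact le_of_mul_le_mul_right goal3 hy0

end Rad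

end Pool.Agent.T2H70.BH
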