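import Pool.Agent.Helper610.Bohr.Basic

set_option autoImplicit false

open Metric Complex Filter Topology Set

namespace Pool.Agent.T2H70.BH

/-- division of analytic functions with a bounded ratio -/
theorem exists_quot (G H : ℂ → ℂ) (k : ℝ) (hG : DifferentiableOn ℂ G (ball 0 1))
    (hH : DifferentiableOn ℂ H (ball 0 1)) (hk : ∀ z ∈ ball (0 : ℂ) 1, ‖G z‖ ≤ k * ‖H z‖)
    (hne : ∃ z ∈ ball (0 : ℂ) 1, H z ≠ 0) :
    ∃ w : ℂ → ℂ, DifferentiableOn ℂ w (ball 0 1) ∧ (∀ z ∈ ball (0 : ℂ) 1, ‖w z‖ ≤ k) ∧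
      ∀ z ∈ ball (0 : ℂ) 1, G z = w z * H z := by
  have hHa : AnalyticOnNhd ℂ H (ball 0 1) := hH.analyticOnNhd isOpen_ball
  have hnz : ∀ z ∈ ball (0 : ℂ) 1, ∀ᶠ x in 𝓝[≠] z, H x ≠ 0 := by
    intro z hz
    rcases (hHa z hz).eventually_eq_zero_or_eventually_ne_zero with h | h
    · exfalso
      obtain ⟨y, hy, hy0⟩ := hne
      apply hy0
      exact hHa.eqOn_zero_of_preconnected_of_eventuallyEq_zero
        (convex_ball (0 : ℂ) 1).isPreconnected hz h hy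
    · exact h
  set q : ℂ → ℂ := fun z => G z / H z with hq
  set w : ℂ → ℂ := fun z => limUnder (𝓝[≠] z) q with hw
  have hwq : ∀ z ∈ ball (0 : ℂ) 1, H z ≠ 0 → w z = q z := by
    intro z hz h0
    have hc : ContinuousAt q z := by
      apply ContinuousAt.div _ _ h0
      · exact (hG.differentiableAt (isOpen_ball.mem_nhds hz)).continuousAt
      · exact (hH.differentiableAt (isOpen_ball.mem_nhds hz)).continuousAt
    exact (hc.tendsto.mono_left nhdsWithin_le_nhds).limUnder_eq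
  -- local description
  have hloc : ∀ z ∈ ball (0 : ℂ) 1, ∃ U ∈ 𝓝 z, U ⊆ ball 0 1 ∧
      DifferentiableOn ℂ (Function.update q z (w z)) U ∧ ∀ x ∈ U, x ≠ z → w x = q x := by
    intro z hz
    have h1 : ∀ᶠ x in 𝓝 z, x ≠ z → H x ≠ 0 := by
      have := hnz z hz
      rwa [eventually_nhdsWithin_iff] at this
    have h2 : ∀ᶠ x in 𝓝 z, x ∈ ball (0 : ℂ) 1 := isOpen_ball.mem_nhds hz
    obtain ⟨ε, hε, hU⟩ := Metric.eventually_nhds_iff_ball.1 (h1.and h2)
    refine ⟨ball z ε, ball_mem_nhds z hε, fun x hx => (hU x hx).2, ?_, ?_⟩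
    · apply Complex.differentiableOn_update_limUnder_of_bddAbove (ball_mem_nhds z hε)
      · apply DifferentiableOn.div
        · exact hG.mono (fun x hx => (hU x hx.1).2)
        · exact hH.mono (fun x hx => (hU x hx.1).2)
        · intro x hx
          exact (hU x hx.1).1 hx.2
      · refine ⟨k, ?_⟩
        rintro _ ⟨x, hx, rfl⟩
        simp only [Function.comp_apply, hq]
        rw [norm_div, div_le_iff₀ (norm_pos_iff.2 ((hU x hx.1).1 hx.2))]
        exact hk x (hU x hx.1).2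
    · intro x hx hxz
      exact hwq x (hU x hx).2 ((hU x hx).1 hxz)
  have heq : ∀ z ∈ ball (0 : ℂ) 1, ∃ U ∈ 𝓝 z, EqOn w (Function.update q z (w z)) U ∧
      DifferentiableOn ℂ (Function.update q z (w z)) U := by
    intro z hz
    obtain ⟨U, hU, -, h2, h3⟩ := hloc z hz
    refine ⟨U, hU, ?_, h2⟩
    intro x hx
    by_cases hxz : x = z
    · rw [hxz]; simp
    · rw [Function.update_of_ne hxz]; exact h3 x hx hxz
  have hwd : DifferentiableOn ℂ w (ball 0 1) := by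
    intro z hz
    obtain ⟨U, hU, h1, h2⟩ := heq z hz
    have h3 : DifferentiableAt ℂ (Function.update q z (w z)) z := h2.differentiableAt hU
    have h4 : w =ᶠ[𝓝 z] Function.update q z (w z) := h1.eventuallyEq_of_mem hU
    exact (h3.congr_of_eventuallyEq h4).differentiableWithinAt
  refine ⟨w, hwd, ?_, ?_⟩
  · intro z hz
    have hc : Tendsto w (𝓝[≠] z) (𝓝 (w z)) :=
      ((hwd.differentiableAt (isOpen_ball.mem_nhds hz)).continuousAt.tendsto).mono_left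
        nhdsWithin_le_nhds
    refine le_of_tendsto hc.norm ?_
    have h1 : ∀ᶠ x in 𝓝[≠] z, x ∈ ball (0 : ℂ) 1 :=
      nhdsWithin_le_nhds (isOpen_ball.mem_nhds hz)
    filter_upwards [hnz z hz, h1] with x hx hxb
    rw [hwq x hxb hx]
    simp only [hq]
    rw [norm_div, div_le_iff₀ (norm_pos_iff.2 hx)]
    exact hk x hxb
  · intro z hz
    by_cases h0 : H z = 0
    · have := hk z hz
      rw [h0, norm_zero, mul_zero] at this
      rw [h0, mul_zero]
      exact norm_le_zero_iff.1 this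
    · rw [hwq z hz h0]
      simp only [hq]
      field_simp

/-- Schwarz-Pick at the origin -/
theorem schwarz_pick (w : ℂ → ℂ) (hw : DifferentiableOn ℂ w (ball 0 1))
    (hb : ∀ z ∈ ball (0 : ℂ) 1, ‖w z‖ ≤ 1) {z : ℂ} (hz : ‖z‖ < 1) :
    ‖w z - w 0‖ ≤ ‖z‖ * ‖1 - (starRingEnd ℂ) (w 0) * w z‖ := by
  have key : ∀ t : ℝ, 0 ≤ t → t < 1 →
      ‖(t : ℂ) * w z - t * w 0‖ ≤ ‖z‖ * ‖1 - (starRingEnd ℂ) (t * w 0) * (t * w z)‖ := by
    intro t ht0 ht1
    have hbt : ∀ x ∈ ball (0 : ℂ) 1, ‖(t : ℂ) * w x‖ < 1 := by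
      intro x hx
      rw [norm_mul, Complex.norm_real, Real.norm_eq_abs, abs_of_nonneg ht0]
      have := hb x hx
      have := norm_nonneg (w x)
      nlinarith
    have h00 : (0 : ℂ) ∈ ball (0 : ℂ) 1 := by simp
    set c : ℂ := (t : ℂ) * w 0 with hc
    have hc1 : ‖c‖ < 1 := hbt 0 h00
    have halg : ∀ y : ℂ, ‖y‖ < 1 → ‖y - c‖ ^ 2 < ‖1 - (starRingEnd ℂ) c * y‖ ^ 2 := by
      intro y hy
      have e : ‖1 - (starRingEnd ℂ) c * y‖ ^ 2 - ‖y - c‖ ^ 2 = (1 - ‖c‖ ^ 2) * (1 - ‖y‖ ^ 2) := by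
        rw [← Complex.normSq_eq_norm_sq, ← Complex.normSq_eq_norm_sq, ← Complex.normSq_eq_norm_sq,
          ← Complex.normSq_eq_norm_sq]
        simp only [Complex.normSq_apply, Complex.sub_re, Complex.sub_im, Complex.one_re,
          Complex.one_im, Complex.mul_re, Complex.mul_im, Complex.conj_re, Complex.conj_im]
        ring
      have h1 : 0 < 1 - ‖c‖ ^ 2 := by nlinarith [norm_nonneg c]
      have h2 : 0 < 1 - ‖y‖ ^ 2 := by nlinarith [norm_nonneg y]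
      nlinarith [mul_pos h1 h2]
    have hne : ∀ y : ℂ, ‖y‖ < 1 → 1 - (starRingEnd ℂ) c * y ≠ 0 := by
      intro y hy h0
      have := halg y hy
      rw [h0, norm_zero] at this
      nlinarith [sq_nonneg ‖y - c‖]
    have hF : ‖(fun x => ((t : ℂ) * w x - c) / (1 - (starRingEnd ℂ) c * ((t : ℂ) * w x))) z‖ ≤ ‖z‖ := by
      apply norm_le_norm_of_mapsTo_ball (R := 1)
        (f := fun x => ((t : ℂ) * w x - c) / (1 - (starRingEnd ℂ) c * ((t : ℂ) * w x))) _ _ _ hz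
      · apply DifferentiableOn.div
        · exact (hw.const_mul _).sub_const _
        · exact ((hw.const_mul _).const_mul _).const_sub _
        · intro x hx
          exact hne _ (hbt x hx)
      · intro x hx
        rw [mem_closedBall_zero_iff, norm_div, div_le_one (norm_pos_iff.2 (hne _ (hbt x hx)))]
        have h1 := halg _ (hbt x hx)
        exact (le_abs_self _).trans (abs_le_of_sq_le_sq h1.le (norm_nonneg _))
      · simp [hc]
    have hzb : z ∈ ball (0 : ℂ) 1 := by simpa using hz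
    simp only at hF
    rw [norm_div, div_le_iff₀ (norm_pos_iff.2 (hne _ (hbt z hzb)))] at hF
    exact hF
  have hl : Tendsto (fun t : ℝ => ‖(t : ℂ) * w z - t * w 0‖) (𝓝[<] 1)
      (𝓝 ‖((1 : ℝ) : ℂ) * w z - ((1 : ℝ) : ℂ) * w 0‖) := by
    have hc : Continuous (fun t : ℝ => ‖(t : ℂ) * w z - t * w 0‖) := by fun_prop
    exact (hc.tendsto 1).mono_left nhdsWithin_le_nhds
  have hr : Tendsto (fun t : ℝ => ‖z‖ * ‖1 - (starRingEnd ℂ) (t * w 0) * (t * w z)‖) (𝓝[<] 1)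
      (𝓝 (‖z‖ * ‖1 - (starRingEnd ℂ) (((1 : ℝ) : ℂ) * w 0) * (((1 : ℝ) : ℂ) * w z)‖)) := by
    have hc : Continuous
        (fun t : ℝ => ‖z‖ * ‖1 - (starRingEnd ℂ) (t * w 0) * (t * w z)‖) := by
      fun_prop
    exact (hc.tendsto 1).mono_left nhdsWithin_le_nhds
  have := le_of_tendsto_of_tendsto hl hr (by
    have h6 : ∀ᶠ τ in 𝓝[<] (1 : ℝ), τ ∈ Ioo (0 : ℝ) 1 :=
      Ioo_mem_nhdsLT (show (0 : ℝ) < 1 by norm_num)
    filter_upwards [h6] with τ hτ
    exact key τ hτ.1.le hτ.2)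
  simpa using this

/-- the growth bound -/
theorem growth (w : ℂ → ℂ) (hw : DifferentiableOn ℂ w (ball 0 1))
    (hb : ∀ z ∈ ball (0 : ℂ) 1, ‖w z‖ ≤ 1) {z : ℂ} (hz : ‖z‖ < 1) :
    ‖w z‖ * (1 + ‖w 0‖ * ‖z‖) ≤ ‖w 0‖ + ‖z‖ := by
  have h1 := schwarz_pick w hw hb hz
  set t := ‖w z‖ with ht
  set β := ‖w 0‖ with hβ
  set u := ‖z‖ with hu
  have ht0 : 0 ≤ t := norm_nonneg _
  have hβ0 : 0 ≤ β := norm_nonneg _
  have hu0 : 0 ≤ u := norm_nonneg _
  have ht1 : t ≤ 1 := hb z (by simpa using hz)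
  have hβ1 : β ≤ 1 := hb 0 (by simp)
  -- the squared version
  have h2 : ‖w z - w 0‖ ^ 2 ≤ u ^ 2 * ‖1 - (starRingEnd ℂ) (w 0) * w z‖ ^ 2 := by
    rw [← mul_pow]
    exact pow_le_pow_left₀ (norm_nonneg _) h1 2
  set s := ((starRingEnd ℂ) (w 0) * w z).re with hs
  have h3 : ‖w z - w 0‖ ^ 2 = t ^ 2 + β ^ 2 - 2 * s := by
    rw [hs, ht, hβ, ← Complex.normSq_eq_norm_sq, ← Complex.normSq_eq_norm_sq,
      ← Complex.normSq_eq_norm_sq]
    simp only [Complex.normSq_apply, Complex.sub_re, Complex.sub_im, Complex.mul_re,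
      Complex.conj_re, Complex.conj_im]
    ring
  have h4 : ‖1 - (starRingEnd ℂ) (w 0) * w z‖ ^ 2 = 1 + β ^ 2 * t ^ 2 - 2 * s := by
    rw [hs, ht, hβ, ← Complex.normSq_eq_norm_sq, ← Complex.normSq_eq_norm_sq,
      ← Complex.normSq_eq_norm_sq]
    simp only [Complex.normSq_apply, Complex.sub_re, Complex.sub_im, Complex.one_re,
      Complex.one_im, Complex.mul_re, Complex.mul_im, Complex.conj_re, Complex.conj_im]
    ring
  have h5 : s ≤ β * t := by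
    rw [hs, hβ, ht]
    refine (Complex.re_le_norm _).trans (le_of_eq ?_)
    rw [norm_mul, RCLike.norm_conj]
  rw [h3, h4] at h2
  by_contra hcon
  push Not at hcon
  -- (t(1+βu) - (β+u)) (t(1-βu) - (β-u)) ≤ 0
  have h6 : (t * (1 + β * u) - (β + u)) * (t * (1 - β * u) - (β - u)) ≤ 0 := by
    have h7 : 0 ≤ 1 - u ^ 2 := by nlinarith
    nlinarith [mul_nonneg h7 (sub_nonneg.2 h5)]
  have h8 : t * (1 - β * u) - (β - u) ≤ 0 := by
    by_contra h9
    push Not at h9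
    nlinarith [mul_pos (sub_pos.2 hcon) h9]
  -- then t ≤ (β-u)/(1-βu) ≤ (β+u)/(1+βu)
  have hβu : β * u < 1 := by nlinarith
  have h10 : t * (1 - β * u) ≤ β - u := by linarith
  have h11 : t * (1 + β * u) * (1 - β * u) ≤ (β - u) * (1 + β * u) := by
    nlinarith [mul_nonneg hβ0 hu0]
  have h12 : (β + u) * (1 - β * u) < t * (1 + β * u) * (1 - β * u) :=
    mul_lt_mul_of_pos_right hcon (by linarith)
  have h13 : (β + u) * (1 - β * u) - (β - u) * (1 + β * u) = 2 * u * (1 - β ^ 2) := by ring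
  have h14 : 0 ≤ 2 * u * (1 - β ^ 2) := by
    have : 0 ≤ 1 - β ^ 2 := by nlinarith
    positivity
  linarith

/-- the bound used under the integral -/
theorem kappa (w : ℂ → ℂ) (hw : DifferentiableOn ℂ w (ball 0 1))
    (hb : ∀ z ∈ ball (0 : ℂ) 1, ‖w z‖ ≤ 1) {z : ℂ} (hz : ‖z‖ < 1) :
    ‖w z‖ ^ 2 ≤ 1 - (1 - ‖w 0‖ ^ 2) * (11 / 16 - 27 / 16 * ‖z‖ ^ 2) := by
  have h1 := growth w hw hb hz
  set t := ‖w z‖ with ht
  set β := ‖w 0‖ with hβ
  set u := ‖z‖ with hu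
  have ht0 : 0 ≤ t := norm_nonneg _
  have hβ0 : 0 ≤ β := norm_nonneg _
  have hu0 : 0 ≤ u := norm_nonneg _
  have hβ1 : β ≤ 1 := hb 0 (by simp)
  have h2 : t ^ 2 * (1 + β * u) ^ 2 ≤ (β + u) ^ 2 := by
    rw [← mul_pow]
    exact pow_le_pow_left₀ (by positivity) h1 2
  -- (1 - t^2) (1+βu)^2 ≥ (1-β^2)(1-u^2)
  have h3 : (1 - β ^ 2) * (1 - u ^ 2) ≤ (1 - t ^ 2) * (1 + β * u) ^ 2 := by nlinarith
  have hβ2 : 0 ≤ 1 - β ^ 2 := by nlinarith
  -- p(u^2) (1+u) ≤ 1-u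
  have h4 : (11 / 16 - 27 / 16 * u ^ 2) * (1 + u) ≤ 1 - u := by
    nlinarith [mul_nonneg (sq_nonneg (3 * u - 1)) (show (0:ℝ) ≤ 3 * u + 5 by positivity)]
  have ht1 : t ≤ 1 := hb z (by simpa using hz)
  rcases le_or_gt (11 / 16 - 27 / 16 * u ^ 2) 0 with hp | hp
  · have : (1 - β ^ 2) * (11 / 16 - 27 / 16 * u ^ 2) ≤ 0 :=
      mul_nonpos_of_nonneg_of_nonpos hβ2 hp
    nlinarith
  · have h5 : (1 - β ^ 2) * (11 / 16 - 27 / 16 * u ^ 2) * (1 + β * u) ^ 2
        ≤ (1 - β ^ 2) * (1 - u ^ 2) := by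
      have h6 : (1 + β * u) ^ 2 ≤ (1 + u) ^ 2 := by
        apply pow_le_pow_left₀ (by positivity)
        nlinarith
      have h7 : (11 / 16 - 27 / 16 * u ^ 2) * (1 + β * u) ^ 2 ≤ 1 - u ^ 2 := by
        calc (11 / 16 - 27 / 16 * u ^ 2) * (1 + β * u) ^ 2
            ≤ (11 / 16 - 27 / 16 * u ^ 2) * (1 + u) ^ 2 := mul_le_mul_of_nonneg_left h6 hp.le
          _ = ((11 / 16 - 27 / 16 * u ^ 2) * (1 + u)) * (1 + u) := by ring
          _ ≤ (1 - u) * (1 + u) := mul_le_mul_of_nonneg_right h4 (by positivity)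
          _ = 1 - u ^ 2 := by ring
      rw [mul_assoc]
      exact mul_le_mul_of_nonneg_left h7 hβ2
    have h8 : (1 - β ^ 2) * (11 / 16 - 27 / 16 * u ^ 2) * (1 + β * u) ^ 2
        ≤ (1 - t ^ 2) * (1 + β * u) ^ 2 := h5.trans h3
    have h9 : 0 < (1 + β * u) ^ 2 := by positivity
    have := le_of_mul_le_mul_right h8 h9
    linarith

end Pool.Agent.T2H70.BH
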